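import Pool.Agent.Work.MP_c6c039_lc.HV.Stmts

/-! Item AS of block HV: assembly of the list. -/

set_option autoImplicit false

namespace Pool.Agent.Work.MP_c6c039_lc.HV

namespace XAS

theorem pt_even (r β : ℕ → ℝ × ℝ) (i : ℕ) : pt r β (2 * i) = r i := by
  unfold pt
  rw [if_pos (by omega), show 2 * i / 2 = i by omega]

theorem pt_odd (r β : ℕ → ℝ × ℝ) (i : ℕ) : pt r β (2 * i + 1) = β i := by
  unfold pt
  rw [if_neg (by omega), show (2 * i + 1) / 2 = i by omega]

theorem par (k : ℕ) : ∃ i, k = 2 * i ∨ k = 2 * i + 1 := ⟨k / 2, by omega⟩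

end XAS

theorem pr_AS : StAS := by
  intro R B n r β hRB hRc hBc hr hri hb hbi hx
  have hmR : ∀ i, i < n → pt r β (2 * i) ∈ R := fun i hi => by
    rw [XAS.pt_even]; exact hr i hi
  have hmB : ∀ i, i < n → pt r β (2 * i + 1) ∈ B := fun i hi => by
    rw [XAS.pt_odd]; exact hb i hi
  have hinj : ∀ k k' : ℕ, k < 2 * n → k' < 2 * n → pt r β k = pt r β k' → k = k' := by
    intro k k' hk hk' h
    obtain ⟨i, hi⟩ := XAS.par k
    obtain ⟨j, hj⟩ := XAS.par k'
    rcases hi with hi | hi <;> rcases hj with hj | hj <;> subst hi <;> subst hj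
    · rw [XAS.pt_even, XAS.pt_even] at h
      rw [hri i (by omega) j (by omega) h]
    · exact absurd (h ▸ hmR i (by omega)) (fun h' =>
        Finset.disjoint_left.1 hRB h' (hmB j (by omega)))
    · exact absurd (h ▸ hmB i (by omega)) (fun h' =>
        Finset.disjoint_left.1 hRB (hmR j (by omega)) h')
    · rw [XAS.pt_odd, XAS.pt_odd] at h
      rw [hbi i (by omega) j (by omega) h]
  have hsR : ∀ p ∈ R, ∃ i, i < n ∧ r i = p := by
    have himg : (Finset.range n).image r = R := by
      apply Finset.eq_of_subset_of_card_le
      · intro p hp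
        rw [Finset.mem_image] at hp
        obtain ⟨i, hi, rfl⟩ := hp
        exact hr i (Finset.mem_range.1 hi)
      · rw [Finset.card_image_of_injOn, Finset.card_range, hRc]
        intro i hi j hj h
        exact hri i (by simpa using hi) j (by simpa using hj) h
    intro p hp
    rw [← himg, Finset.mem_image] at hp
    obtain ⟨i, hi, h⟩ := hp
    exact ⟨i, Finset.mem_range.1 hi, h⟩
  have hsB : ∀ p ∈ B, ∃ i, i < n ∧ β i = p := by
    have himg : (Finset.range n).image β = B := by
      apply Finset.eq_of_subset_of_card_le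
      · intro p hp
        rw [Finset.mem_image] at hp
        obtain ⟨i, hi, rfl⟩ := hp
        exact hb i (Finset.mem_range.1 hi)
      · rw [Finset.card_image_of_injOn, Finset.card_range, hBc]
        intro i hi j hj h
        exact hbi i (by simpa using hi) j (by simpa using hj) h
    intro p hp
    rw [← himg, Finset.mem_image] at hp
    obtain ⟨i, hi, h⟩ := hp
    exact ⟨i, Finset.mem_range.1 hi, h⟩
  let l : List (ℝ × ℝ) := List.ofFn (fun k : Fin (2 * n) => pt r β k)
  have hlen : l.length = 2 * n := by simp [l]
  have hget : ∀ (i : ℕ) (h : i < l.length), l[i] = pt r β i := by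
    intro i h
    simp [l]
  refine ⟨l, ?_, ?_, ?_, ?_⟩
  · rw [List.nodup_ofFn]
    intro k k' h
    exact Fin.ext (hinj k k' k.2 k'.2 h)
  · intro p
    constructor
    · intro hp
      obtain ⟨k, hk, hkp⟩ := List.getElem_of_mem hp
      rw [hget k hk] at hkp
      rw [hlen] at hk
      rw [Finset.mem_union, ← hkp]
      obtain ⟨i, hi | hi⟩ := XAS.par k
      · subst hi
        exact Or.inl (hmR i (by omega))
      · subst hi
        exact Or.inr (hmB i (by omega))
    · intro hp
      rw [Finset.mem_union] at hp
      rcases hp with hp | hp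
      · obtain ⟨i, hi, h⟩ := hsR p hp
        have hk : 2 * i < l.length := by rw [hlen]; omega
        have := List.getElem_mem hk
        rw [hget _ hk, XAS.pt_even, h] at this
        exact this
      · obtain ⟨i, hi, h⟩ := hsB p hp
        have hk : 2 * i + 1 < l.length := by rw [hlen]; omega
        have := List.getElem_mem hk
        rw [hget _ hk, XAS.pt_odd, h] at this
        exact this
  · intro k hk
    have hk' : k + 1 < 2 * n := by rw [← hlen]; exact hk
    rw [hget k (by omega), hget (k + 1) hk]
    obtain ⟨i, hi | hi⟩ := XAS.par k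
    · subst hi
      exact Or.inl ⟨hmR i (by omega), hmB i (by omega)⟩
    · subst hi
      refine Or.inr ⟨hmB i (by omega), ?_⟩
      have := hmR (i + 1) (by omega)
      rw [show 2 * (i + 1) = 2 * i + 1 + 1 by ring] at this
      exact this
  · intro i j hij hj
    have hj' : j + 1 < 2 * n := by rw [← hlen]; exact hj
    rw [hget i (by omega), hget (i + 1) (by omega), hget j (by omega), hget (j + 1) hj]
    have key : ∀ x, x ∈ segment ℝ (pt r β i) (pt r β (i + 1)) →
        x ∈ segment ℝ (pt r β j) (pt r β (j + 1)) → j = i + 1 ∧ x = pt r β j := by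
      intro x h1 h2
      obtain ⟨ha, hb'⟩ := hx i j hij hj' x h1 h2
      rcases ha with ha | ha <;> rcases hb' with hb' | hb'
      · have := hinj i j (by omega) (by omega) (ha.symm.trans hb')
        omega
      · have := hinj i (j + 1) (by omega) (by omega) (ha.symm.trans hb')
        omega
      · have := hinj (i + 1) j (by omega) (by omega) (ha.symm.trans hb')
        exact ⟨this.symm, hb'⟩
      · have := hinj (i + 1) (j + 1) (by omega) (by omega) (ha.symm.trans hb')
        omega
    split_ifs with hji
    · ext x
      rw [Set.mem_inter_iff, Set.mem_singleton_iff]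
      constructor
      · rintro ⟨h1, h2⟩
        exact (key x h1 h2).2
      · intro h
        subst h
        subst hji
        exact ⟨right_mem_segment ℝ _ _, left_mem_segment ℝ _ _⟩
    · ext x
      rw [Set.mem_inter_iff, Set.mem_empty_iff_false, iff_false]
      rintro ⟨h1, h2⟩
      exact hji (key x h1 h2).1

end Pool.Agent.Work.MP_c6c039_lc.HV
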