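import Pool.Agent.Work.MP_c6c039_lc.HV.Stmts

set_option autoImplicit false

namespace Pool.Agent.Work.MP_c6c039_lc.HV

namespace XBR

theorem coll (p q r : ℝ × ℝ) (hpq : p ≠ q) (h : o p q r = 0) :
    Collinear ℝ ({p, q, r} : Set (ℝ × ℝ)) := by
  obtain ⟨t, ht⟩ : ∃ t : ℝ, r = t • (q - p) + p := by
    unfold o at h
    by_cases h1 : q.1 - p.1 = 0
    · have h2 : q.2 - p.2 ≠ 0 := by
        intro h2
        apply hpq
        apply Prod.ext <;> linarith
      have h3 : r.1 - p.1 = 0 := by
        rw [h1] at h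
        have h4 : (q.2 - p.2) * (r.1 - p.1) = 0 := by linarith
        rcases mul_eq_zero.1 h4 with h5 | h5
        · exact absurd h5 h2
        · exact h5
      refine ⟨(r.2 - p.2) / (q.2 - p.2), Prod.ext ?_ ?_⟩
      · simp only [Prod.fst_add, Prod.smul_fst, Prod.fst_sub, smul_eq_mul]
        rw [h1, mul_zero]
        linarith
      · simp only [Prod.snd_add, Prod.smul_snd, Prod.snd_sub, smul_eq_mul]
        rw [div_mul_cancel₀ _ h2]
        linarith
    · refine ⟨(r.1 - p.1) / (q.1 - p.1), Prod.ext ?_ ?_⟩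
      · simp only [Prod.fst_add, Prod.smul_fst, Prod.fst_sub, smul_eq_mul]
        rw [div_mul_cancel₀ _ h1]
        linarith
      · simp only [Prod.snd_add, Prod.smul_snd, Prod.snd_sub, smul_eq_mul]
        have h3 : (r.1 - p.1) / (q.1 - p.1) * (q.2 - p.2) = r.2 - p.2 := by
          rw [div_mul_eq_mul_div, div_eq_iff h1]
          linarith
        rw [h3]
        linarith
  rw [collinear_iff_of_mem (p₀ := p) (by simp)]
  refine ⟨q - p, ?_⟩
  intro x hx
  simp only [Set.mem_insert_iff, Set.mem_singleton_iff] at hx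
  rcases hx with rfl | rfl | rfl
  · exact ⟨0, by simp⟩
  · exact ⟨1, by simp⟩
  · exact ⟨t, by rw [vadd_eq_add]; exact ht⟩

end XBR

theorem pr_BR : StBR := by
  intro P h p hp q hq r hr hpq hqr hpr ho
  exact h p hp q hq r hr hpq hqr hpr (XBR.coll p q r hpq ho)

end Pool.Agent.Work.MP_c6c039_lc.HV
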