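import Pool.Agent.Work.MP_c6c039_lc.HV.Stmts

/-!
# The exchange lemma
-/

set_option autoImplicit false

namespace Pool.Agent.Work.MP_c6c039_lc.HV

namespace XEXC

/-- Points of a triangle. -/
theorem tri (a b p w : ℝ × ℝ) (h : w ∈ convexHull ℝ ({a, b, p} : Set (ℝ × ℝ))) :
    ∃ x y z : ℝ, 0 ≤ x ∧ 0 ≤ y ∧ 0 ≤ z ∧ x + y + z = 1 ∧
      w.1 = x * a.1 + y * b.1 + z * p.1 ∧ w.2 = x * a.2 + y * b.2 + z * p.2 := by
  rw [convexHull_insert ⟨b, Set.mem_insert _ _⟩, convexHull_pair, mem_convexJoin] at h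
  obtain ⟨a', ha', v, hv, hw⟩ := h
  rw [Set.mem_singleton_iff] at ha'
  subst ha'
  obtain ⟨s, t, hs, ht, hst, rfl⟩ := hv
  obtain ⟨s', t', hs', ht', hst', rfl⟩ := hw
  refine ⟨s', t' * s, t' * t, hs', mul_nonneg ht' hs, mul_nonneg ht' ht, ?_, ?_, ?_⟩
  · linear_combination t' * hst + hst'
  · simp only [Prod.fst_add, Prod.smul_fst, smul_eq_mul]
    ring
  · simp only [Prod.snd_add, Prod.smul_snd, smul_eq_mul]
    ring

/-- The signed area is affine. -/
theorem o_comb (s t a b p w : ℝ × ℝ) (x y z : ℝ) (h : x + y + z = 1)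
    (h1 : w.1 = x * a.1 + y * b.1 + z * p.1) (h2 : w.2 = x * a.2 + y * b.2 + z * p.2) :
    o s t w = x * o s t a + y * o s t b + z * o s t p := by
  unfold o
  rw [h1, h2]
  linear_combination ((t.1 - s.1) * s.2 - (t.2 - s.2) * s.1) * h

theorem o_left (a b : ℝ × ℝ) : o a b a = 0 := by
  unfold o
  ring

theorem o_right (a b : ℝ × ℝ) : o a b b = 0 := by
  unfold o
  ring

theorem o_swap (a b c : ℝ × ℝ) : o b a c = - o a b c := by
  unfold o
  ring

theorem nonneg {P : Finset (ℝ × ℝ)} {a b c : ℝ × ℝ} (h : HullEdge P a b) (hc : c ∈ P) :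
    0 ≤ o a b c ∧ (o a b c = 0 → c = a ∨ c = b) := by
  by_cases h1 : c = a
  · subst h1
    rw [o_left]
    exact ⟨le_rfl, fun _ => Or.inl rfl⟩
  by_cases h2 : c = b
  · subst h2
    rw [o_right]
    exact ⟨le_rfl, fun _ => Or.inr rfl⟩
  have h3 := h.2.2.2 c hc h1 h2
  exact ⟨h3.le, fun h4 => absurd h4 h3.ne'⟩

/-- At most one common end point. -/
theorem common {a b c d v v' p : ℝ × ℝ} (hne : (a, b) ≠ (c, d)) (hF : 0 < o a b p)
    (hG : 0 < o c d p) (h1 : v = a ∨ v = b) (h2 : v = c ∨ v = d) (h1' : v' = a ∨ v' = b)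
    (h2' : v' = c ∨ v' = d) : v = v' := by
  by_contra hvv
  have hsw : ∀ x y : ℝ × ℝ, 0 < o x y p → 0 < o y x p → False := by
    intro x y hx hy
    rw [o_swap] at hy
    linarith
  rcases h1 with rfl | rfl <;> rcases h1' with rfl | rfl
  · exact hvv rfl
  · rcases h2 with rfl | rfl <;> rcases h2' with rfl | rfl
    · exact hvv rfl
    · exact hne rfl
    · exact hsw _ _ hF hG
    · exact hvv rfl
  · rcases h2 with rfl | rfl <;> rcases h2' with rfl | rfl
    · exact hvv rfl
    · exact hsw _ _ hF hG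
    · exact hne rfl
    · exact hvv rfl
  · exact hvv rfl

/-- Reduction to a segment. -/
theorem seg {P : Finset (ℝ × ℝ)} {a b c d p w : ℝ × ℝ} (hab : HullEdge P a b)
    (hcd : HullEdge P c d) (hne : (a, b) ≠ (c, d)) (hF : 0 < o a b p) (hG : 0 < o c d p)
    (x y z : ℝ) (hxyz : x + y + z = 1)
    (h1 : w.1 = x * a.1 + y * b.1 + z * p.1) (h2 : w.2 = x * a.2 + y * b.2 + z * p.2)
    (hx : x * o c d a = 0) (hy : y * o c d b = 0) :
    ∃ (l : ℝ) (v : ℝ × ℝ), l + z = 1 ∧ (v = a ∨ v = b) ∧ (l ≠ 0 → v = c ∨ v = d) ∧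
      w.1 = l * v.1 + z * p.1 ∧ w.2 = l * v.2 + z * p.2 := by
  have hax : x ≠ 0 → a = c ∨ a = d := by
    intro h
    exact (nonneg hcd hab.1).2 ((mul_eq_zero.mp hx).resolve_left h)
  have hby : y ≠ 0 → b = c ∨ b = d := by
    intro h
    exact (nonneg hcd hab.2.1).2 ((mul_eq_zero.mp hy).resolve_left h)
  by_cases hx0 : x = 0
  · refine ⟨y, b, ?_, Or.inr rfl, hby, ?_, ?_⟩
    · linarith
    · rw [h1, hx0]
      ring
    · rw [h2, hx0]
      ring
  by_cases hy0 : y = 0
  · refine ⟨x, a, ?_, Or.inl rfl, hax, ?_, ?_⟩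
    · linarith
    · rw [h1, hy0]
      ring
    · rw [h2, hy0]
      ring
  exact absurd (common hne hF hG (Or.inl rfl) (hax hx0) (Or.inr rfl) (hby hy0)) hab.2.2.1

end XEXC

open XEXC in
theorem pr_EXC : StEXC := by
  intro P a b c d p q w hGP hab hcd hne hp hq hpq hpa hpb hpc hpd hqa hqb hqc hqd hle hw hw'
  obtain ⟨x, y, z, hx, hy, hz, hxyz, h1, h2⟩ := tri a b p w hw
  obtain ⟨x', y', z', hx', hy', hz', hxyz', h1', h2'⟩ := tri c d q w hw'
  have hF : 0 < o a b p := hab.2.2.2 p hp hpa hpb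
  have hG : 0 < o c d p := hcd.2.2.2 p hp hpc hpd
  have hF' : 0 < o a b q := hab.2.2.2 q hq hqa hqb
  have hG' : 0 < o c d q := hcd.2.2.2 q hq hqc hqd
  have e1 := o_comb a b a b p w x y z hxyz h1 h2
  have e2 := o_comb a b c d q w x' y' z' hxyz' h1' h2'
  have e3 := o_comb c d a b p w x y z hxyz h1 h2
  have e4 := o_comb c d c d q w x' y' z' hxyz' h1' h2'
  rw [o_left, o_right, mul_zero, mul_zero, zero_add, zero_add] at e1 e4
  have nc := (nonneg hab hcd.1).1
  have nd := (nonneg hab hcd.2.1).1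
  have na := (nonneg hcd hab.1).1
  have nb := (nonneg hcd hab.2.1).1
  have k1 : 0 ≤ x' * o a b c := mul_nonneg hx' nc
  have k2 : 0 ≤ y' * o a b d := mul_nonneg hy' nd
  have k3 : 0 ≤ x * o c d a := mul_nonneg hx na
  have k4 : 0 ≤ y * o c d b := mul_nonneg hy nb
  have eF : z * o a b p = x' * o a b c + y' * o a b d + z' * o a b q := by rw [← e1, ← e2]
  have eG : z' * o c d q = x * o c d a + y * o c d b + z * o c d p := by rw [← e4, ← e3]
  -- the slacks are zero
  have hXY : x' * o a b c + y' * o a b d = 0 ∧ x * o c d a + y * o c d b = 0 := by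
    have hX : 0 ≤ x' * o a b c + y' * o a b d := add_nonneg k1 k2
    have hY : 0 ≤ x * o c d a + y * o c d b := add_nonneg k3 k4
    generalize x' * o a b c + y' * o a b d = X at *
    generalize x * o c d a + y * o c d b = Y at *
    have m1 : 0 ≤ X * Y := mul_nonneg hX hY
    have m2 : 0 ≤ X * (z * o c d p) := mul_nonneg hX (mul_nonneg hz hG.le)
    have m3 : 0 ≤ z' * o a b q * Y := mul_nonneg (mul_nonneg hz' hF'.le) hY
    have m4 : z * z' * (o a b p * o c d q) ≤ z * z' * (o a b q * o c d p) :=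
      mul_le_mul_of_nonneg_left hle (mul_nonneg hz hz')
    have m5 : z * z' * (o a b p * o c d q) =
        (X + z' * o a b q) * (Y + z * o c d p) := by
      rw [← eF, ← eG]
      ring
    have m6 : X * (z * o c d p) = 0 := by nlinarith
    have m7 : z' * o a b q * Y = 0 := by nlinarith
    rcases hz.eq_or_lt with hz0 | hz0
    · have n1 : X + z' * o a b q = 0 := by rw [← eF, ← hz0, zero_mul]
      have n2 : 0 ≤ z' * o a b q := mul_nonneg hz' hF'.le
      have n3 : X = 0 := by linarith
      have n4 : z' * o a b q = 0 := by linarith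
      have n5 : z' = 0 := (mul_eq_zero.mp n4).resolve_right hF'.ne'
      refine ⟨n3, ?_⟩
      rw [n5, ← hz0, zero_mul, zero_mul, add_zero] at eG
      exact eG.symm
    · have n1 : X = 0 := (mul_eq_zero.mp m6).resolve_right (mul_pos hz0 hG).ne'
      refine ⟨n1, ?_⟩
      have n2 : z' ≠ 0 := by
        intro h
        rw [h, zero_mul] at eG
        have : 0 < z * o c d p := mul_pos hz0 hG
        linarith
      exact (mul_eq_zero.mp m7).resolve_left (mul_ne_zero n2 hF'.ne')
  obtain ⟨hX, hY⟩ := hXY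
  have hx'0 : x' * o a b c = 0 := by linarith
  have hy'0 : y' * o a b d = 0 := by linarith
  have hx0 : x * o c d a = 0 := by linarith
  have hy0 : y * o c d b = 0 := by linarith
  have eF' : z * o a b p = z' * o a b q := by linarith
  obtain ⟨l, v, hl, hv1, hv2, hv3, hv4⟩ := seg hab hcd hne hF hG x y z hxyz h1 h2 hx0 hy0
  obtain ⟨l', v', hl', hv1', hv2', hv3', hv4'⟩ := seg hcd hab hne.symm hG' hF' x' y' z' hxyz' h1' h2'
    hx'0 hy'0
  have hvP : v ∈ P := by
    rcases hv1 with rfl | rfl
    · exact hab.1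
    · exact hab.2.1
  have hvP' : v' ∈ P := by
    rcases hv1' with rfl | rfl
    · exact hcd.1
    · exact hcd.2.1
  have hvp : v ≠ p := by
    rcases hv1 with rfl | rfl
    · exact hpa.symm
    · exact hpb.symm
  have hvq : v ≠ q := by
    rcases hv1 with rfl | rfl
    · exact hqa.symm
    · exact hqb.symm
  have hvp' : v' ≠ p := by
    rcases hv1' with rfl | rfl
    · exact hpc.symm
    · exact hpd.symm
  have hvq' : v' ≠ q := by
    rcases hv1' with rfl | rfl
    · exact hqc.symm
    · exact hqd.symm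
  rcases hz.eq_or_lt with hz0 | hz0
  · have n1 : z' = 0 := by
      rw [← hz0, zero_mul] at eF'
      exact (mul_eq_zero.mp eF'.symm).resolve_right hF'.ne'
    have n2 : l = 1 := by linarith
    have n3 : w = v := by
      rw [n2, ← hz0] at hv3 hv4
      apply Prod.ext
      · rw [hv3]
        ring
      · rw [hv4]
        ring
    rw [n3]
    exact ⟨hv1, hv2 (by rw [n2]; exact one_ne_zero)⟩
  · exfalso
    have hz'0 : z' ≠ 0 := by
      intro h
      rw [h, zero_mul] at eF'
      exact (mul_pos hz0 hF).ne' eF'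
    by_cases hl0 : l = 0
    · have n1 : z = 1 := by linarith
      by_cases hl'0 : l' = 0
      · have n2 : z' = 1 := by linarith
        apply hpq
        rw [hl0, n1] at hv3 hv4
        rw [hl'0, n2] at hv3' hv4'
        apply Prod.ext
        · linarith
        · linarith
      · apply hGP v' hvP' q hq p hp hvq' hpq.symm hvp'
        rw [hl0, n1] at hv3 hv4
        have n3 : p.1 = l' * v'.1 + z' * q.1 := by linarith
        have n4 : p.2 = l' * v'.2 + z' * q.2 := by linarith
        unfold o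
        have n5 : l' = 1 - z' := by linarith
        rw [n3, n4, n5]
        ring
    · by_cases hl'0 : l' = 0
      · have n2 : z' = 1 := by linarith
        apply hGP v hvP p hp q hq hvp hpq hvq
        rw [hl'0, n2] at hv3' hv4'
        have n3 : q.1 = l * v.1 + z * p.1 := by linarith
        have n4 : q.2 = l * v.2 + z * p.2 := by linarith
        unfold o
        have n5 : l = 1 - z := by linarith
        rw [n3, n4, n5]
        ring
      · have hvv : v = v' := common hne hF hG hv1 (hv2 hl0) (hv2' hl'0) hv1'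
        subst hvv
        apply hGP v hvP p hp q hq hvp hpq hvq
        have n5 : l = 1 - z := by linarith
        have n5' : l' = 1 - z' := by linarith
        have n6 : z * (p.1 - v.1) = z' * (q.1 - v.1) := by
          rw [n5] at hv3
          rw [n5'] at hv3'
          linarith
        have n7 : z * (p.2 - v.2) = z' * (q.2 - v.2) := by
          rw [n5] at hv4
          rw [n5'] at hv4'
          linarith
        have n8 : z' * o v p q = 0 := by
          unfold o
          linear_combination (-(p.1 - v.1)) * n7 + (p.2 - v.2) * n6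
        exact (mul_eq_zero.mp n8).resolve_left hz'0

end Pool.Agent.Work.MP_c6c039_lc.HV
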