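import Pool.Agent.Work.MP_c6c039_lc.HV.Stmts

/-!
# HV, item FI: the final simplicity check
-/

set_option autoImplicit false

namespace Pool.Agent.Work.MP_c6c039_lc.HV

namespace XFI

lemma o_comb (a b c d : ℝ × ℝ) (s t : ℝ) (h : s + t = 1) :
    o a b (s • c + t • d) = s * o a b c + t * o a b d := by
  have hs : s = 1 - t := by linarith
  simp only [o, Prod.fst_add, Prod.snd_add, Prod.smul_fst, Prod.smul_snd, smul_eq_mul]
  rw [hs]
  ring

lemma o_left (a b : ℝ × ℝ) : o a b a = 0 := by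
  simp only [o]; ring

lemma o_right (a b : ℝ × ℝ) : o a b b = 0 := by
  simp only [o]; ring

lemma o_seg {a b x : ℝ × ℝ} (h : x ∈ segment ℝ a b) : o a b x = 0 := by
  obtain ⟨s, t, _, _, hst, rfl⟩ := h
  rw [o_comb a b a b s t hst, o_left, o_right]; ring

lemma mem_of {P : Finset (ℝ × ℝ)} (hP : GP P) {a b x : ℝ × ℝ} (ha : a ∈ P) (hb : b ∈ P)
    (hx : x ∈ P) (hab : a ≠ b) (h : x ∈ segment ℝ a b) : x = a ∨ x = b := by
  by_contra hc
  rw [not_or] at hc
  exact hP a ha b hb x hx hab (Ne.symm hc.2) (Ne.symm hc.1) (o_seg h)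

lemma share {P : Finset (ℝ × ℝ)} (hP : GP P) {a b c x : ℝ × ℝ} (ha : a ∈ P) (hb : b ∈ P)
    (hc : c ∈ P) (hab : a ≠ b) (hbc : b ≠ c) (hac : a ≠ c) (h1 : x ∈ segment ℝ a b)
    (h2 : x ∈ segment ℝ b c) : x = b := by
  have h0 := o_seg h1
  obtain ⟨s, t, _, _, hst, rfl⟩ := h2
  rw [o_comb a b b c s t hst, o_right] at h0
  have h3 := hP a ha b hb c hc hab hbc hac
  have ht0 : t = 0 := by
    rcases mul_eq_zero.1 (by linarith : t * o a b c = 0) with h | h
    · exact h
    · exact absurd h h3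
  have hs1 : s = 1 := by linarith
  rw [ht0, hs1]
  simp

lemma pt_even (r β : ℕ → ℝ × ℝ) (i : ℕ) : pt r β (2 * i) = r i := by
  have h1 : (2 * i) % 2 = 0 := by omega
  have h2 : (2 * i) / 2 = i := by omega
  simp only [pt, h1, h2, if_true]

lemma pt_odd (r β : ℕ → ℝ × ℝ) (i : ℕ) : pt r β (2 * i + 1) = β i := by
  have h1 : ¬ (2 * i + 1) % 2 = 0 := by omega
  have h2 : (2 * i + 1) / 2 = i := by omega
  simp only [pt, if_neg h1, h2]

lemma pt_odd' (r β : ℕ → ℝ × ℝ) (i : ℕ) : pt r β (2 * i + 1 + 1) = r (i + 1) := by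
  have : 2 * i + 1 + 1 = 2 * (i + 1) := by ring
  rw [this, pt_even]

lemma pt_inj {R B : Finset (ℝ × ℝ)} {r β : ℕ → ℝ × ℝ} (hd : Disjoint R B) (D : Dat R B r β)
    {k l : ℕ} (hk : k < 2 * R.card) (hl : l < 2 * R.card) (h : pt r β k = pt r β l) : k = l := by
  obtain ⟨i, rfl | rfl⟩ := Nat.even_or_odd' k
  · obtain ⟨j, rfl | rfl⟩ := Nat.even_or_odd' l
    · rw [pt_even, pt_even] at h
      rw [D.ri i (by omega) j (by omega) h]
    · rw [pt_even, pt_odd] at h
      have h1 := D.rm i (by omega)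
      have h2 := D.bm j (by omega)
      rw [h] at h1
      exact absurd h2 (Finset.disjoint_left.1 hd h1)
  · obtain ⟨j, rfl | rfl⟩ := Nat.even_or_odd' l
    · rw [pt_even, pt_odd] at h
      have h1 := D.rm j (by omega)
      have h2 := D.bm i (by omega)
      rw [h] at h2
      exact absurd h2 (Finset.disjoint_left.1 hd h1)
    · rw [pt_odd, pt_odd] at h
      rw [D.bi i (by omega) j (by omega) h]

/-- the index `i` is of hull type -/
def HT (R B : Finset (ℝ × ℝ)) (r β : ℕ → ℝ × ℝ) (i : ℕ) : Prop :=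
  HullEdge (R ∪ B) (r i) (β i) ∧ (i + 1 < R.card → HullEdge (R ∪ B) (β i) (r (i + 1)))

/-- the triangle of the index `i` -/
def T (R : Finset (ℝ × ℝ)) (r β : ℕ → ℝ × ℝ) (i : ℕ) : Set (ℝ × ℝ) :=
  convexHull ℝ ({r i, (if i + 1 < R.card then r (i + 1) else r 0), β i} : Set (ℝ × ℝ))

lemma pt_mem {R B : Finset (ℝ × ℝ)} {r β : ℕ → ℝ × ℝ} (D : Dat R B r β)
    {k : ℕ} (hk : k < 2 * R.card) : pt r β k ∈ R ∪ B := by
  obtain ⟨i, rfl | rfl⟩ := Nat.even_or_odd' k
  · rw [pt_even]
    exact Finset.mem_union_left _ (D.rm i (by omega))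
  · rw [pt_odd]
    exact Finset.mem_union_right _ (D.bm i (by omega))

lemma edge {R B : Finset (ℝ × ℝ)} {r β : ℕ → ℝ × ℝ} {k : ℕ}
    (hk : k + 1 < 2 * R.card) :
    (HT R B r β (k / 2) → HullEdge (R ∪ B) (pt r β k) (pt r β (k + 1))) ∧
    ∀ x ∈ segment ℝ (pt r β k) (pt r β (k + 1)), x ∈ T R r β (k / 2) := by
  obtain ⟨i, rfl | rfl⟩ := Nat.even_or_odd' k
  · have h2 : (2 * i) / 2 = i := by omega
    rw [h2, pt_even, pt_odd]
    refine ⟨fun h => h.1, fun x hx => ?_⟩
    refine (convex_convexHull ℝ _).segment_subset ?_ ?_ hx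
    · exact subset_convexHull ℝ _ (by simp)
    · exact subset_convexHull ℝ _ (by simp)
  · have h2 : (2 * i + 1) / 2 = i := by omega
    rw [h2, pt_odd, pt_odd']
    have hi : i + 1 < R.card := by omega
    refine ⟨fun h => h.2 hi, fun x hx => ?_⟩
    unfold T
    rw [if_pos hi]
    refine (convex_convexHull ℝ _).segment_subset ?_ ?_ hx
    · exact subset_convexHull ℝ _ (by simp)
    · exact subset_convexHull ℝ _ (by simp)

lemma nx_mem {R B : Finset (ℝ × ℝ)} {r β : ℕ → ℝ × ℝ} (D : Dat R B r β)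
    {i : ℕ} (hi : i < R.card) : (if i + 1 < R.card then r (i + 1) else r 0) ∈ R ∪ B := by
  split_ifs with h
  · exact Finset.mem_union_left _ (D.rm _ h)
  · exact Finset.mem_union_left _ (D.rm 0 (by omega))

lemma cross {R B : Finset (ℝ × ℝ)} {r β : ℕ → ℝ × ℝ} (hE : StHE) (hd : Disjoint R B)
    (hP : GP (R ∪ B)) (D : Dat R B r β) {k l : ℕ} (hkl : k < l) (hl : l + 1 < 2 * R.card)
    (x : ℝ × ℝ) (h1 : x ∈ segment ℝ (pt r β k) (pt r β (k + 1)))
    (h2 : x ∈ segment ℝ (pt r β l) (pt r β (l + 1))) :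
    (x = pt r β k ∨ x = pt r β (k + 1)) ∧ (x = pt r β l ∨ x = pt r β (l + 1)) := by
  have hk : k + 1 < 2 * R.card := by omega
  have ek := edge (B := B) (r := r) (β := β) hk
  have el := edge (B := B) (r := r) (β := β) hl
  have nk : pt r β k ≠ pt r β (k + 1) := fun h => by
    have := pt_inj hd D (by omega) (by omega) h; omega
  have nl : pt r β l ≠ pt r β (l + 1) := fun h => by
    have := pt_inj hd D (by omega) (by omega) h; omega
  by_cases tk : HT R B r β (k / 2)
  · refine hE (R ∪ B) _ _ _ _ x (ek.1 tk) (pt_mem D (by omega)) (pt_mem D (by omega)) nl ?_ ?_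
      h1 h2
    · rintro ⟨h, -⟩
      have := pt_inj hd D (by omega) (by omega) h; omega
    · rintro ⟨h, h'⟩
      have e1 := pt_inj hd D (by omega) (by omega) h
      have e2 := pt_inj hd D (by omega) (by omega) h'
      omega
  by_cases tl : HT R B r β (l / 2)
  · have := hE (R ∪ B) _ _ _ _ x (el.1 tl) (pt_mem D (by omega) : pt r β k ∈ R ∪ B)
      (pt_mem D (by omega) : pt r β (k + 1) ∈ R ∪ B) nk ?_ ?_ h2 h1
    · exact ⟨this.2, this.1⟩
    · rintro ⟨h, -⟩
      have := pt_inj hd D (by omega) (by omega) h; omega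
    · rintro ⟨h, h'⟩
      have e1 := pt_inj hd D (by omega) (by omega) h
      have e2 := pt_inj hd D (by omega) (by omega) h'
      omega
  by_cases hij : k / 2 = l / 2
  · obtain ⟨i, rfl | rfl⟩ := Nat.even_or_odd' k
    · have hl' : l = 2 * i + 1 := by omega
      subst hl'
      rw [pt_even, pt_odd] at h1
      rw [pt_odd, pt_odd'] at h2
      rw [pt_even, pt_odd, pt_odd']
      have hi : i + 1 < R.card := by omega
      have m1 : r i ∈ R := D.rm i (by omega)
      have m2 : r (i + 1) ∈ R := D.rm _ hi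
      have m3 : β i ∈ B := D.bm i (by omega)
      have d1 : r i ≠ β i := fun h => Finset.disjoint_left.1 hd m1 (h ▸ m3)
      have d2 : β i ≠ r (i + 1) := fun h => Finset.disjoint_left.1 hd m2 (h ▸ m3)
      have d3 : r i ≠ r (i + 1) := fun h => by
        have := D.ri i (by omega) (i + 1) hi h; omega
      have := share hP (Finset.mem_union_left _ m1) (Finset.mem_union_right _ m3)
        (Finset.mem_union_left _ m2) d1 d2 d3 h1 h2
      exact ⟨Or.inr this, Or.inl this⟩
    · omega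
  · have key := D.tr (k / 2) (by omega) (l / 2) (by omega) hij tk tl x (ek.2 x h1) (el.2 x h2)
    have mx : x ∈ R ∪ B := by
      rcases key.1 with h | h
      · rw [h]; exact Finset.mem_union_left _ (D.rm _ (by omega))
      · rw [h]; exact nx_mem D (by omega)
    exact ⟨mem_of hP (pt_mem D (by omega)) (pt_mem D (by omega)) mx nk h1,
      mem_of hP (pt_mem D (by omega)) (pt_mem D (by omega)) mx nl h2⟩

end XFI

open XFI in
theorem pr_FI : StDA → StHE → StAS → StFI := by
  intro hDA hHE hAS R B hG hc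
  rcases R.eq_empty_or_nonempty with hR | hR
  · subst hR
    have hB : B = ∅ := by
      rw [← Finset.card_eq_zero, ← hc, Finset.card_empty]
    subst hB
    refine ⟨[], ⟨List.nodup_nil, ?_, ?_, ?_⟩⟩
    · intro p; simp
    · intro i h
      exact absurd h (by simp)
    · intro i j hij hj
      exact absurd hj (by simp)
  · obtain ⟨r, β, D⟩ := hDA R B hG hR hc
    exact hAS R B R.card r β hG.disj rfl hc.symm D.rm D.ri D.bm D.bi
      (fun i j hij hj x h1 h2 => cross hHE hG.disj hG.gp D hij hj x h1 h2)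

end Pool.Agent.Work.MP_c6c039_lc.HV
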