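import Pool.Agent.Work.MP_c6c039_lc.HV.Stmts

/-!
# HV, item HE
-/

set_option autoImplicit false

namespace Pool.Agent.Work.MP_c6c039_lc.HV

namespace XHE

theorem o_comb (a b c d : ℝ × ℝ) (s t : ℝ) (h : s + t = 1) :
    o a b (s • c + t • d) = s * o a b c + t * o a b d := by
  simp only [o, Prod.fst_add, Prod.snd_add, Prod.smul_fst, Prod.smul_snd, smul_eq_mul]
  linear_combination ((b.1 - a.1) * a.2 - (b.2 - a.2) * a.1) * h

theorem o_left (a b : ℝ × ℝ) : o a b a = 0 := by simp [o]

theorem o_right (a b : ℝ × ℝ) : o a b b = 0 := by simp [o]; ring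

theorem o_nonneg (P : Finset (ℝ × ℝ)) (a b c : ℝ × ℝ) (h : HullEdge P a b) (hc : c ∈ P) :
    0 ≤ o a b c := by
  by_cases ha : c = a
  · rw [ha, o_left]
  by_cases hb : c = b
  · rw [hb, o_right]
  exact (h.2.2.2 c hc ha hb).le

end XHE

open XHE in
/-- Item HE. -/
theorem pr_HE : StHE := by
  intro P a b c d x h hc hd hcd h1 h2 hx hx'
  have hx0 : o a b x = 0 := by
    obtain ⟨s, t, hs, ht, hst, rfl⟩ := hx
    rw [o_comb a b a b s t hst, o_left, o_right, mul_zero, mul_zero, add_zero]
  obtain ⟨s, t, hs, ht, hst, rfl⟩ := hx'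
  rw [o_comb a b c d s t hst] at hx0
  have hc0 := o_nonneg P a b c h hc
  have hd0 := o_nonneg P a b d h hd
  have e1 : s * o a b c = 0 := by
    have := mul_nonneg hs hc0
    have := mul_nonneg ht hd0
    linarith
  have e2 : t * o a b d = 0 := by linarith
  by_cases hC : c = a ∨ c = b
  · by_cases hD : d = a ∨ d = b
    · exfalso
      rcases hC with rfl | rfl
      · rcases hD with rfl | rfl
        · exact hcd rfl
        · exact h1 ⟨rfl, rfl⟩
      · rcases hD with rfl | rfl
        · exact h2 ⟨rfl, rfl⟩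
        · exact hcd rfl
    · push Not at hD
      have hdp := h.2.2.2 d hd hD.1 hD.2
      have ht0 : t = 0 := by
        rcases mul_eq_zero.1 e2 with h' | h'
        · exact h'
        · exact absurd h' hdp.ne'
      have hs1 : s = 1 := by linarith
      have hxc : s • c + t • d = c := by rw [hs1, ht0, one_smul, zero_smul, add_zero]
      rw [hxc]
      exact ⟨hC, Or.inl rfl⟩
  · push Not at hC
    have hcp := h.2.2.2 c hc hC.1 hC.2
    have hs0 : s = 0 := by
      rcases mul_eq_zero.1 e1 with h' | h'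
      · exact h'
      · exact absurd h' hcp.ne'
    have ht1 : t = 1 := by linarith
    have hxd : s • c + t • d = d := by rw [hs0, ht1, one_smul, zero_smul, zero_add]
    rw [hxd]
    refine ⟨?_, Or.inr rfl⟩
    by_contra hD
    push Not at hD
    have hdp := h.2.2.2 d hd hD.1 hD.2
    rw [ht1, one_mul] at e2
    exact absurd e2 hdp.ne'

end Pool.Agent.Work.MP_c6c039_lc.HV
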