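import Pool.Agent.Work.MP_c6c039_lc.HV.Stmts

/-!
# HV: item NX, the next hull vertex
-/

set_option autoImplicit false

namespace Pool.Agent.Work.MP_c6c039_lc.HV

namespace XNX

theorem o_anti (a b c : ℝ × ℝ) : o a c b = - o a b c := by
  unfold o; ring

theorem exists_min (hTR : StTR) (P : Finset (ℝ × ℝ)) (a : ℝ × ℝ) (hP : GP P) (ha : a ∈ P)
    (hE : Ext P a) (S : Finset (ℝ × ℝ)) :
    (∀ x ∈ S, x ∈ P ∧ x ≠ a) → S.Nonempty → ∃ b ∈ S, ∀ c ∈ S, c ≠ b → 0 < o a b c := by
  classical
  induction S using Finset.induction with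
  | empty => intro _ h; exact absurd h (by simp)
  | insert x S hx ih =>
    intro hS _
    have hxP := hS x (Finset.mem_insert_self x S)
    have hS' : ∀ y ∈ S, y ∈ P ∧ y ≠ a := fun y hy => hS y (Finset.mem_insert_of_mem hy)
    rcases S.eq_empty_or_nonempty with h0 | hne
    · refine ⟨x, Finset.mem_insert_self x S, ?_⟩
      intro c hc hcx
      rw [h0] at hc
      simp only [Finset.mem_insert, Finset.notMem_empty, or_false] at hc
      exact absurd hc hcx
    · obtain ⟨b, hb, hmin⟩ := ih hS' hne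
      have hbP := hS' b hb
      have hxb : x ≠ b := by
        intro h; rw [h] at hx; exact hx hb
      have hne0 : o a x b ≠ 0 := hP a ha x hxP.1 b hbP.1 (Ne.symm hxP.2) hxb (Ne.symm hbP.2)
      rcases lt_or_gt_of_ne hne0 with hlt | hgt
      · refine ⟨b, Finset.mem_insert_of_mem hb, ?_⟩
        intro c hc hcb
        rcases Finset.mem_insert.1 hc with h | h
        · rw [h, o_anti a x b]
          linarith
        · exact hmin c h hcb
      · refine ⟨x, Finset.mem_insert_self x S, ?_⟩
        intro c hc hcx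
        rcases Finset.mem_insert.1 hc with h | h
        · exact absurd h hcx
        · by_cases hcb : c = b
          · rw [hcb]; exact hgt
          · exact hTR P a x b c hE hxP.1 hbP.1 (hS' c h).1 hxP.2 hbP.2 (hS' c h).2 hgt
              (hmin c h hcb)

end XNX

theorem pr_NX : StTR → StNX := by
  classical
  intro hTR P a hP ha hb hE
  obtain ⟨b0, hb0, hb0a⟩ := hb
  obtain ⟨b, hbS, hmin⟩ := XNX.exists_min hTR P a hP ha hE (P.erase a)
    (fun x hx => ⟨Finset.mem_of_mem_erase hx, Finset.ne_of_mem_erase hx⟩)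
    ⟨b0, Finset.mem_erase.2 ⟨hb0a, hb0⟩⟩
  refine ⟨b, ha, Finset.mem_of_mem_erase hbS, Ne.symm (Finset.ne_of_mem_erase hbS), ?_⟩
  intro c hc hca hcb
  exact hmin c (Finset.mem_erase.2 ⟨hca, hc⟩) hcb

end Pool.Agent.Work.MP_c6c039_lc.HV
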