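import Pool.Agent.Work.MP_c6c039_lc.HV.Stmts

/-! Item RU of block HV (helper55). -/

set_option autoImplicit false

namespace Pool.Agent.Work.MP_c6c039_lc.HV

namespace XRU

/-- a finite nonempty set has a maximal element with respect to a strict order -/
theorem exists_max {α : Type} (S : Finset α) (hS : S.Nonempty) (lt : α → α → Prop)
    (irr : ∀ x ∈ S, ¬ lt x x)
    (tr : ∀ x ∈ S, ∀ y ∈ S, ∀ z ∈ S, lt x y → lt y z → lt x z) :
    ∃ m ∈ S, ∀ d ∈ S, ¬ lt m d := by
  classical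
  obtain ⟨m, hm, hmin⟩ := Finset.exists_min_image S (fun x => (S.filter (fun y => lt x y)).card) hS
  refine ⟨m, hm, fun d hd hlt => ?_⟩
  have h1 := hmin d hd
  have h2 : (S.filter (fun y => lt d y)) ⊂ (S.filter (fun y => lt m y)) := by
    rw [Finset.ssubset_iff_subset_ne]
    constructor
    · intro e he
      rw [Finset.mem_filter] at he ⊢
      exact ⟨he.1, tr m hm d hd e he.1 hlt he.2⟩
    · intro he
      have h3 : d ∈ S.filter (fun y => lt m y) := Finset.mem_filter.mpr ⟨hd, hlt⟩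
      rw [← he] at h3
      exact irr d hd (Finset.mem_filter.mp h3).2
  have h3 := Finset.card_lt_card h2
  change (S.filter (fun y => lt m y)).card ≤ (S.filter (fun y => lt d y)).card at h1
  omega

theorem o_rot (a b c : ℝ × ℝ) : o a b c = o b c a := by
  unfold o
  ring

theorem o_swap (a b c : ℝ × ℝ) : o a b c = - o a c b := by
  unfold o
  ring

theorem o_self (a b : ℝ × ℝ) : o a b b = 0 := by
  unfold o
  ring

end XRU

theorem pr_RU : StTR → StNX → StHD → StTI → StRU := by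
  intro hTR hNX hHD hTI R B r s b c hG hr hs hrs hb hc hbc hcs
  classical
  have hRP : ∀ x ∈ R, x ∈ R ∪ B := fun x hx => Finset.mem_union_left _ hx
  have hBP : ∀ x ∈ B, x ∈ R ∪ B := fun x hx => Finset.mem_union_right _ hx
  have hne : ∀ x ∈ R, ∀ y ∈ B, x ≠ y := fun x hx y hy hxy =>
    Finset.disjoint_left.mp hG.disj hx (hxy ▸ hy)
  have hS : (B.filter (fun x => (∃ y ∈ B, HullEdge (R ∪ B) y x) ∧ 0 < o r x s)).Nonempty :=
    ⟨c, Finset.mem_filter.mpr ⟨hc, ⟨b, hb, hbc⟩, hcs⟩⟩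
  obtain ⟨m, hm, hmax⟩ := XRU.exists_max
    (B.filter (fun x => (∃ y ∈ B, HullEdge (R ∪ B) y x) ∧ 0 < o r x s)) hS
    (fun x y => 0 < o r x y)
    (fun x _ h => by
      have h' : 0 < o r x x := h
      rw [XRU.o_self] at h'
      exact lt_irrefl _ h')
    (fun x hx y hy z hz h1 h2 => by
      have hx' := (Finset.mem_filter.mp hx).1
      have hy' := (Finset.mem_filter.mp hy).1
      have hz' := (Finset.mem_filter.mp hz).1
      exact hTR (R ∪ B) r x y z (hG.ext r hr) (hBP x hx') (hBP y hy') (hBP z hz')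
        (hne r hr x hx').symm (hne r hr y hy').symm (hne r hr z hz').symm h1 h2)
  rw [Finset.mem_filter] at hm
  obtain ⟨hmB, ⟨b', hb', hbm⟩, hms⟩ := hm
  obtain ⟨d, hd⟩ := hNX (R ∪ B) m hG.gp (hBP m hmB) ⟨r, hRP r hr, hne r hr m hmB⟩
    (hHD (R ∪ B) b' m hbm)
  have hdr : d ≠ r := by
    intro hdr
    rw [hdr] at hd
    have h1 := hd.2.2.2 s (hRP s hs) (hne s hs m hmB) (Ne.symm hrs)
    rw [XRU.o_rot, XRU.o_swap] at h1
    linarith
  rcases Finset.mem_union.mp hd.2.1 with hdR | hdB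
  · exact ⟨b', hb', m, hmB, d, hdR, hdr, hbm, hd⟩
  · exfalso
    have h1 := hd.2.2.2 r (hRP r hr) (hne r hr m hmB) (hne r hr d hdB)
    have h2 : 0 < o r m d := by
      rw [XRU.o_rot]
      exact h1
    by_cases h3 : 0 < o r d s
    · exact hmax d (Finset.mem_filter.mpr ⟨hdB, ⟨m, hmB, hd⟩, h3⟩) h2
    · have h4 := hG.gp r (hRP r hr) d (hBP d hdB) s (hRP s hs) (hne r hr d hdB)
        (hne s hs d hdB).symm hrs
      have h5 : 0 < o r s d := by
        rw [XRU.o_swap]
        have h6 : o r d s < 0 := lt_of_le_of_ne (not_lt.mp h3) h4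
        linarith
      exact hTI (R ∪ B) m d r s hd (hRP r hr) (hRP s hs) (Ne.symm hrs) (hne s hs m hmB)
        (hne s hs d hdB) hms h5 (hG.ext s hs)

end Pool.Agent.Work.MP_c6c039_lc.HV
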