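import Pool.Agent.Work.MP_c6c039_lc.HV.Stmts

/-!
# HV, item SQ: between two consecutive red points
-/

set_option autoImplicit false

namespace Pool.Agent.Work.MP_c6c039_lc.HV

namespace XSQ

theorem o_cyc (a b c : ℝ × ℝ) : o a b c = o b c a := by
  unfold o
  ring

theorem o_swap (a b c : ℝ × ℝ) : o a b c = -o a c b := by
  unfold o
  ring

theorem o_self (a b : ℝ × ℝ) : o a b b = 0 := by
  unfold o
  ring

end XSQ

open XSQ in
/-- Item SQ. -/
theorem pr_SQ : StTR → StNX → StHD → StTI → StRU → StSQ := by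
  intro hTR hNX hHD hTI hRU R B r0 p q hG hr hp hq hqr hr0 hpq hcons
  have mR : ∀ {s : ℝ × ℝ}, s ∈ R → s ∈ R ∪ B := fun h => Finset.mem_union_left _ h
  have mB : ∀ {s : ℝ × ℝ}, s ∈ B → s ∈ R ∪ B := fun h => Finset.mem_union_right _ h
  have hdis : ∀ s : ℝ × ℝ, s ∈ R → s ∉ B := fun s h1 h2 =>
    (Finset.disjoint_left.mp hG.disj) h1 h2
  have hpq' : p ≠ q := by
    rintro rfl
    rcases hpq with h | h
    · exact hqr h
    · rw [o_self] at h
      exact lt_irrefl _ h
  obtain ⟨x, hx⟩ := hNX (R ∪ B) p hG.gp (mR hp) ⟨q, mR hq, fun h => hpq' h.symm⟩ (hG.ext p hp)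
  obtain ⟨-, hxP, hpx, hxl⟩ := id hx
  -- (i)
  have i1 : x ≠ r0 := by
    intro h
    have hpr : p ≠ r0 := fun h' => hpx (h'.trans h.symm)
    have h1 : 0 < o r0 p q := by
      rcases hpq with h' | h'
      · exact absurd h' hpr
      · exact h'
    have h2 := hxl q (mR hq) hpq'.symm (fun h' => hqr (h'.trans h))
    rw [h, o_cyc, o_swap] at h2
    linarith
  -- (ii)
  have i2 : ¬ 0 < o r0 q x := by
    intro h
    have hxq : q ≠ x := by
      intro h'
      rw [← h', o_self] at h
      exact lt_irrefl _ h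
    by_cases hpr : p = r0
    · have h2 := hxl q (mR hq) hpq'.symm hxq
      rw [hpr, o_swap] at h2
      linarith
    · have h1 : 0 < o r0 p q := by
        rcases hpq with h' | h'
        · exact absurd h' hpr
        · exact h'
      exact hTI (R ∪ B) p x r0 q hx (mR hr) (mR hq) hqr hpq'.symm hxq h1 h (hG.ext q hq)
  have hpx0 : p = r0 ∨ 0 < o r0 p x := by
    by_cases hpr : p = r0
    · exact Or.inl hpr
    · right
      have h2 := hxl r0 (mR hr) (fun h => hpr h.symm) (fun h => i1 h.symm)
      rw [o_cyc, o_cyc] at h2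
      exact h2
  have hlt : ∀ z : ℝ × ℝ, z ∈ R ∪ B → z ≠ r0 → z ≠ q → ¬ 0 < o r0 q z → 0 < o r0 z q := by
    intro z hz hzr hzq hn
    have h1 : o r0 z q ≠ 0 := hG.gp r0 (mR hr) z hz q (mR hq) (fun h => hzr h.symm) hzq
      (fun h => hqr h.symm)
    rw [o_swap] at hn
    have h2 : 0 ≤ o r0 z q := by
      by_contra h3
      exact hn (by linarith [not_le.mp h3])
    exact lt_of_le_of_ne h2 h1.symm
  by_cases hxR : x ∈ R
  · -- (iii)
    left
    by_cases hxq : x = q
    · rw [← hxq]
      exact hx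
    · exfalso
      exact hcons x hxR i1 (fun h => hpx h.symm) hxq ⟨hpx0, hlt x hxP i1 hxq i2⟩
  · -- (iv)
    have hxB : x ∈ B := by
      rcases Finset.mem_union.mp hxP with h | h
      · exact absurd h hxR
      · exact h
    have hxq : x ≠ q := fun h => hxR (h ▸ hq)
    have hxltq : 0 < o r0 x q := hlt x hxP i1 hxq i2
    have hxE : Ext (R ∪ B) x := hHD (R ∪ B) p x hx
    obtain ⟨y, hy⟩ := hNX (R ∪ B) x hG.gp hxP ⟨p, mR hp, hpx⟩ hxE
    obtain ⟨-, hyP, hxy, hyl⟩ := id hy
    have j1 : y ≠ r0 := by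
      intro h
      have h2 := hyl q (mR hq) hxq.symm (fun h' => hqr (h'.trans h))
      rw [h, o_cyc, o_swap] at h2
      linarith
    have j2 : ¬ 0 < o r0 q y := by
      intro h
      have hyq : q ≠ y := by
        intro h'
        rw [← h', o_self] at h
        exact lt_irrefl _ h
      exact hTI (R ∪ B) x y r0 q hy (mR hr) (mR hq) hqr hxq.symm hyq hxltq h (hG.ext q hq)
    by_cases hyR : y ∈ R
    · right
      by_cases hyq : y = q
      · exact ⟨x, hxB, hx, hyq ▸ hy⟩
      · exfalso
        have k1 : 0 < o r0 x y := by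
          have h2 := hyl r0 (mR hr) (fun h => i1 h.symm) (fun h => j1 h.symm)
          rw [o_cyc, o_cyc] at h2
          exact h2
        have k2 : y ≠ p := by
          intro h
          rcases hpx0 with h' | h'
          · exact j1 (h.trans h')
          · rw [h, o_swap] at k1
            linarith
        have k3 : p = r0 ∨ 0 < o r0 p y := by
          rcases hpx0 with h' | h'
          · exact Or.inl h'
          · by_cases hpr : p = r0
            · exact Or.inl hpr
            · exact Or.inr (hTR (R ∪ B) r0 p x y (hG.ext r0 hr) (mR hp) hxP hyP hpr i1 j1 h' k1)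
        exact hcons y hyR j1 k2 hyq ⟨k3, hlt y hyP j1 hyq j2⟩
    · exfalso
      have hyB : y ∈ B := by
        rcases Finset.mem_union.mp hyP with h | h
        · exact absurd h hyR
        · exact h
      have hyq : y ≠ q := fun h => hyR (h ▸ hq)
      obtain ⟨b', hb', c', hc', s', hs', hs0, e1, e2⟩ :=
        hRU R B r0 q x y hG hr hq (fun h => hqr h.symm) hxB hyB hy (hlt y hyP j1 hyq j2)
      exact hs0 (hr0 b' hb' c' hc' s' hs' e1 e2)

end Pool.Agent.Work.MP_c6c039_lc.HV
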