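import Pool.Agent.Work.MP_c6c039_lc.HV.Stmts

/-!
HV of problem c6c039, item TI.
-/

set_option autoImplicit false

namespace Pool.Agent.Work.MP_c6c039_lc.HV

theorem pr_TI : StTI := by
  intro P a b r c hE hr hc hcr hca hcb h1 h2 hext
  apply hext
  obtain ⟨ha, hb, -, hpos⟩ := hE
  have h3 : 0 < o a b c := hpos c hc hca hcb
  have hs : 0 < o a b c + o r c b + o r a c := by linarith
  have mr : r ∈ convexHull ℝ ((P : Set (ℝ × ℝ)) \ {c}) :=
    subset_convexHull ℝ _ ⟨hr, fun h => hcr (Set.mem_singleton_iff.1 h).symm⟩
  have ma : a ∈ convexHull ℝ ((P : Set (ℝ × ℝ)) \ {c}) :=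
    subset_convexHull ℝ _ ⟨ha, fun h => hca (Set.mem_singleton_iff.1 h).symm⟩
  have mb : b ∈ convexHull ℝ ((P : Set (ℝ × ℝ)) \ {c}) :=
    subset_convexHull ℝ _ ⟨hb, fun h => hcb (Set.mem_singleton_iff.1 h).symm⟩
  have hcv := convex_convexHull ℝ ((P : Set (ℝ × ℝ)) \ {c})
  have key := hcv.sum_mem (t := (Finset.univ : Finset (Fin 3)))
    (w := ![o a b c / (o a b c + o r c b + o r a c), o r c b / (o a b c + o r c b + o r a c),
      o r a c / (o a b c + o r c b + o r a c)]) (z := ![r, a, b])
    (by
      intro i _
      fin_cases i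
      · exact (div_pos h3 hs).le
      · exact (div_pos h2 hs).le
      · exact (div_pos h1 hs).le)
    (by
      rw [Fin.sum_univ_three]
      change o a b c / (o a b c + o r c b + o r a c) + o r c b / (o a b c + o r c b + o r a c) +
        o r a c / (o a b c + o r c b + o r a c) = 1
      have hs0 : o a b c + o r c b + o r a c ≠ 0 := hs.ne'
      field_simp)
    (by
      intro i _
      fin_cases i
      · exact mr
      · exact ma
      · exact mb)
  rw [Fin.sum_univ_three] at key
  change (o a b c / (o a b c + o r c b + o r a c)) • r +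
      (o r c b / (o a b c + o r c b + o r a c)) • a +
      (o r a c / (o a b c + o r c b + o r a c)) • b ∈ _ at key
  have e : (o a b c / (o a b c + o r c b + o r a c)) • r +
      (o r c b / (o a b c + o r c b + o r a c)) • a +
      (o r a c / (o a b c + o r c b + o r a c)) • b = c := by
    have hs0 : o a b c + o r c b + o r a c ≠ 0 := hs.ne'
    ext
    · simp only [Prod.fst_add, Prod.smul_fst, smul_eq_mul]
      field_simp
      unfold o
      ring
    · simp only [Prod.snd_add, Prod.smul_snd, smul_eq_mul]
      field_simp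
      unfold o
      ring
  rw [e] at key
  exact key

end Pool.Agent.Work.MP_c6c039_lc.HV
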