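import Pool.Agent.Work.MP_c6c039_lc.HV.Stmts

/-!
# HV, item TR: the angular order at an extreme point is transitive (helper57)
-/

set_option autoImplicit false

namespace Pool.Agent.Work.MP_c6c039_lc.HV

theorem XTR.plu (u v : ℝ) (a x y z : ℝ × ℝ) :
    (u * (y.1 - a.1) + v * (y.2 - a.2)) * o a x z =
      (u * (x.1 - a.1) + v * (x.2 - a.2)) * o a y z +
        (u * (z.1 - a.1) + v * (z.2 - a.2)) * o a x y := by
  unfold o
  ring

theorem pr_TR (hFN : StFN) : StTR := by
  intro P a x y z ha hx hy hz hxa hya hza h1 h2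
  obtain ⟨u, v, hf⟩ := hFN P a ha
  have h3 : 0 < (u * (y.1 - a.1) + v * (y.2 - a.2)) * o a x z := by
    rw [XTR.plu]
    exact add_pos (mul_pos (hf x hx hxa) h2) (mul_pos (hf z hz hza) h1)
  exact (mul_pos_iff_of_pos_left (hf y hy hya)).1 h3

end Pool.Agent.Work.MP_c6c039_lc.HV
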