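import Pool.Agent.Work.MP_c6c039_lc.HV.I_FN
import Pool.Agent.Work.MP_c6c039_lc.HV.I_TR
import Pool.Agent.Work.MP_c6c039_lc.HV.I_NX
import Pool.Agent.Work.MP_c6c039_lc.HV.I_HD
import Pool.Agent.Work.MP_c6c039_lc.HV.I_TI
import Pool.Agent.Work.MP_c6c039_lc.HV.I_RU
import Pool.Agent.Work.MP_c6c039_lc.HV.I_SQ
import Pool.Agent.Work.MP_c6c039_lc.HV.I_CY
import Pool.Agent.Work.MP_c6c039_lc.HV.I_EXC
import Pool.Agent.Work.MP_c6c039_lc.HV.I_MI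
import Pool.Agent.Work.MP_c6c039_lc.HV.I_HE
import Pool.Agent.Work.MP_c6c039_lc.HV.I_AS
import Pool.Agent.Work.MP_c6c039_lc.HV.I_DA
import Pool.Agent.Work.MP_c6c039_lc.HV.I_FI
import Pool.Agent.Work.MP_c6c039_lc.HV.I_BR

/-!
# HV: assembly
-/

set_option autoImplicit false

namespace Pool.Agent.Work.MP_c6c039_lc.HV

/-- The theorem. -/
theorem main : StFI :=
  have hTR : StTR := pr_TR pr_FN
  have hNX : StNX := pr_NX hTR
  have hRU : StRU := pr_RU hTR hNX pr_HD pr_TI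
  have hSQ : StSQ := pr_SQ hTR hNX pr_HD pr_TI hRU
  have hCY : StCY := pr_CY hTR hNX hSQ
  pr_FI (pr_DA hCY pr_MI pr_EXC) pr_HE pr_AS

end Pool.Agent.Work.MP_c6c039_lc.HV
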