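import Pool.Agent.Work.MP_c6c039_lc.HV.Stmts2

/-!
# CT: cardinalities of the two sides of a chord
-/

set_option autoImplicit false

namespace Pool.Agent.Work.MP_c6c039_lc.HV

namespace XCT

theorem mem_side (P : Finset (ℝ × ℝ)) (u v x : ℝ × ℝ) :
    x ∈ side P u v ↔ x ∈ P ∧ 0 < o u v x := by
  unfold side
  rw [Finset.mem_filter]

theorem o_swap (u v x : ℝ × ℝ) : o v u x = - o u v x := by
  unfold o
  ring

theorem o_left (u v : ℝ × ℝ) : o u v u = 0 := by
  unfold o
  ring

theorem o_right (u v : ℝ × ℝ) : o u v v = 0 := by
  unfold o
  ring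

theorem disj (P Q : Finset (ℝ × ℝ)) (u v : ℝ × ℝ) : Disjoint (side P u v) (side Q v u) := by
  rw [Finset.disjoint_left]
  intro x hx hy
  rw [mem_side] at hx hy
  have h := o_swap u v x
  linarith [hx.2, hy.2]

end XCT

open XCT in
theorem pr_CT : StCT := by
  intro R B u v h
  have hu := h.ma
  have hv := h.mc
  have hne := h.ne
  have tri : ∀ x ∈ R ∪ B, x ≠ u → x ≠ v → 0 < o u v x ∨ 0 < o v u x := by
    intro x hx h1 h2
    have h3 := h.gp u (Finset.mem_union_left _ hu) v (Finset.mem_union_left _ hv) x hx hne
      (Ne.symm h2) (Ne.symm h1)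
    rcases lt_or_gt_of_ne h3 with h4 | h4
    · right
      rw [o_swap]
      linarith
    · left
      exact h4
  have eB : side B u v ∪ side B v u = B := by
    ext x
    rw [Finset.mem_union, mem_side, mem_side]
    constructor
    · rintro (h1 | h1)
      · exact h1.1
      · exact h1.1
    · intro hx
      have h1 : x ≠ u := by
        intro e
        exact Finset.disjoint_left.1 h.disj (e ▸ hu) hx
      have h2 : x ≠ v := by
        intro e
        exact Finset.disjoint_left.1 h.disj (e ▸ hv) hx
      rcases tri x (Finset.mem_union_right _ hx) h1 h2 with h3 | h3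
      · exact Or.inl ⟨hx, h3⟩
      · exact Or.inr ⟨hx, h3⟩
  have eR : insert v (side R u v) ∪ insert v (insert u (side R v u)) = R := by
    ext x
    rw [Finset.mem_union, Finset.mem_insert, Finset.mem_insert, Finset.mem_insert, mem_side,
      mem_side]
    constructor
    · rintro ((h1 | h1) | (h1 | h1 | h1))
      · exact h1 ▸ hv
      · exact h1.1
      · exact h1 ▸ hv
      · exact h1 ▸ hu
      · exact h1.1
    · intro hx
      by_cases h1 : x = u
      · exact Or.inr (Or.inr (Or.inl h1))
      · by_cases h2 : x = v
        · exact Or.inl (Or.inl h2)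
        · rcases tri x (Finset.mem_union_left _ hx) h1 h2 with h3 | h3
          · exact Or.inl (Or.inr ⟨hx, h3⟩)
          · exact Or.inr (Or.inr (Or.inr ⟨hx, h3⟩))
  have nvl : v ∉ side R u v := by
    rw [mem_side, o_right]
    exact fun h1 => lt_irrefl _ h1.2
  have nul : u ∉ side R u v := by
    rw [mem_side, o_left]
    exact fun h1 => lt_irrefl _ h1.2
  have nur : u ∉ side R v u := by
    rw [mem_side, o_right]
    exact fun h1 => lt_irrefl _ h1.2
  have nvr' : v ∉ side R v u := by
    rw [mem_side, o_left]
    exact fun h1 => lt_irrefl _ h1.2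
  have nvr : v ∉ insert u (side R v u) := by
    rw [Finset.mem_insert]
    rintro (h1 | h1)
    · exact hne h1.symm
    · exact nvr' h1
  have c1 : (insert v (side R u v)).card = (side R u v).card + 1 :=
    Finset.card_insert_of_notMem nvl
  have c2 : (insert v (insert u (side R v u))).card = (side R v u).card + 2 := by
    rw [Finset.card_insert_of_notMem nvr, Finset.card_insert_of_notMem nur]
  have c3 : (side B u v).card + (side B v u).card = B.card := by
    rw [← Finset.card_union_of_disjoint (disj B B u v), eB]
  have c4 : (side R u v).card + (side R v u).card + 2 = R.card := by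
    have hd : Disjoint (side R u v) (insert v (insert u (side R v u))) := by
      rw [Finset.disjoint_insert_right, Finset.disjoint_insert_right]
      exact ⟨nvl, nul, disj R R u v⟩
    have e : side R u v ∪ insert v (insert u (side R v u)) = R := by
      have hm : v ∈ side R u v ∪ insert v (insert u (side R v u)) :=
        Finset.mem_union_right _ (Finset.mem_insert_self _ _)
      rw [Finset.insert_union, Finset.insert_eq_of_mem hm] at eR
      exact eR
    have h5 := Finset.card_union_of_disjoint hd
    rw [e, c2] at h5
    omega
  exact ⟨c4, c3, c1, c2, eR, eB⟩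

end Pool.Agent.Work.MP_c6c039_lc.HV
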