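import Pool.Agent.Work.MP_c6c039_lc.HV.Stmts2

/-!
# HV, item CY: the red points in counterclockwise order
-/

set_option autoImplicit false

namespace Pool.Agent.Work.MP_c6c039_lc.HV

namespace XCY2

theorem o_swap (a x y : ℝ × ℝ) : o a y x = - o a x y := by
  unfold o; ring

theorem o_cyc (a x y : ℝ × ℝ) : o x y a = o a x y := by
  unfold o; ring

theorem o_self (a x : ℝ × ℝ) : o a x x = 0 := by
  unfold o; ring

theorem exMin {α : Type*} [DecidableEq α] (rel : α → α → Prop) (S : Finset α) :
    S.Nonempty → (∀ x ∈ S, ∀ y ∈ S, x ≠ y → rel x y ∨ rel y x) →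
    (∀ x ∈ S, ∀ y ∈ S, ∀ z ∈ S, rel x y → rel y z → rel x z) →
    ∃ m ∈ S, ∀ c ∈ S, c ≠ m → rel m c := by
  induction S using Finset.induction_on with
  | empty => intro h; exact absurd h Finset.not_nonempty_empty
  | insert a S ha ih =>
    intro _ htot htr
    by_cases hS : S.Nonempty
    · obtain ⟨m, hm, hmin⟩ := ih hS
        (fun x hx y hy => htot x (Finset.mem_insert_of_mem hx) y (Finset.mem_insert_of_mem hy))
        (fun x hx y hy z hz => htr x (Finset.mem_insert_of_mem hx) y
          (Finset.mem_insert_of_mem hy) z (Finset.mem_insert_of_mem hz))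
      have ham : a ≠ m := fun h => ha (h ▸ hm)
      rcases htot a (Finset.mem_insert_self a S) m (Finset.mem_insert_of_mem hm) ham with h | h
      · refine ⟨a, Finset.mem_insert_self a S, fun c hc hca => ?_⟩
        have hcS : c ∈ S := (Finset.mem_insert.mp hc).resolve_left hca
        by_cases hcm : c = m
        · rw [hcm]; exact h
        · exact htr a (Finset.mem_insert_self a S) m (Finset.mem_insert_of_mem hm) c hc h
            (hmin c hcS hcm)
      · refine ⟨m, Finset.mem_insert_of_mem hm, fun c hc hcm => ?_⟩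
        rcases Finset.mem_insert.mp hc with rfl | hcS
        · exact h
        · exact hmin c hcS hcm
    · rw [Finset.not_nonempty_iff_eq_empty] at hS
      subst hS
      refine ⟨a, Finset.mem_insert_self a _, fun c hc hca => ?_⟩
      rcases Finset.mem_insert.mp hc with rfl | hcS
      · exact absurd rfl hca
      · exact absurd hcS (Finset.notMem_empty c)

theorem exEnum {α : Type*} [DecidableEq α] (rel : α → α → Prop) (d : α) (n : ℕ) :
    ∀ S : Finset α, S.card = n → (∀ x ∈ S, ∀ y ∈ S, x ≠ y → rel x y ∨ rel y x) →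
    (∀ x ∈ S, ∀ y ∈ S, ∀ z ∈ S, rel x y → rel y z → rel x z) →
    ∃ f : ℕ → α, (∀ i < n, f i ∈ S) ∧ (∀ i j, i < j → j < n → rel (f i) (f j)) ∧
      ∀ s ∈ S, ∃ i < n, f i = s := by
  induction n with
  | zero =>
    intro S hS _ _
    rw [Finset.card_eq_zero] at hS
    subst hS
    exact ⟨fun _ => d, fun i hi => absurd hi (Nat.not_lt_zero i),
      fun i j _ hj => absurd hj (Nat.not_lt_zero j), fun s hs => absurd hs (Finset.notMem_empty s)⟩
  | succ n ih =>
    intro S hS htot htr
    have hne : S.Nonempty := by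
      rw [← Finset.card_pos, hS]; exact Nat.succ_pos n
    obtain ⟨m, hm, hmin⟩ := exMin rel S hne htot htr
    obtain ⟨g, hg1, hg2, hg3⟩ := ih (S.erase m)
      (by rw [Finset.card_erase_of_mem hm, hS]; rfl)
      (fun x hx y hy => htot x (Finset.mem_of_mem_erase hx) y (Finset.mem_of_mem_erase hy))
      (fun x hx y hy z hz => htr x (Finset.mem_of_mem_erase hx) y (Finset.mem_of_mem_erase hy) z
        (Finset.mem_of_mem_erase hz))
    refine ⟨fun i => if i = 0 then m else g (i - 1), ?_, ?_, ?_⟩
    · intro i hi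
      by_cases h0 : i = 0
      · simp only [h0, if_true]; exact hm
      · simp only [h0, if_false]
        exact Finset.mem_of_mem_erase (hg1 (i - 1) (by omega))
    · intro i j hij hj
      have hj0 : j ≠ 0 := by omega
      by_cases h0 : i = 0
      · simp only [h0, hj0, if_true, if_false]
        have h1 := hg1 (j - 1) (by omega)
        exact hmin _ (Finset.mem_of_mem_erase h1) (Finset.ne_of_mem_erase h1)
      · simp only [h0, hj0, if_false]
        exact hg2 (i - 1) (j - 1) (by omega) (by omega)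
    · intro s hs
      by_cases hsm : s = m
      · exact ⟨0, Nat.succ_pos n, by simp [hsm]⟩
      · obtain ⟨i, hi, e⟩ := hg3 s (Finset.mem_erase.mpr ⟨hsm, hs⟩)
        refine ⟨i + 1, by omega, ?_⟩
        simp only [Nat.succ_ne_zero, if_false, Nat.add_sub_cancel]
        exact e

/-- the base point -/
theorem exBase (R B : Finset (ℝ × ℝ)) (hG : Good R B) (hR : R.Nonempty) :
    ∃ r0 ∈ R, ∀ b ∈ B, ∀ c ∈ B, ∀ s ∈ R, HullEdge (R ∪ B) b c → HullEdge (R ∪ B) c s →
      s = r0 := by
  by_cases hp : ∃ b ∈ B, ∃ c ∈ B, ∃ s ∈ R, HullEdge (R ∪ B) b c ∧ HullEdge (R ∪ B) c s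
  · obtain ⟨b, hb, c, hc, s, hs, h1, h2⟩ := hp
    refine ⟨s, hs, ?_⟩
    intro b' hb' c' hc' s' hs' h1' h2'
    have hcc := hG.one b hb c hc s hs b' hb' c' hc' s' hs' h1 h2 h1' h2'
    subst hcc
    by_contra hne
    have k1 := h2.2.2.2 s' h2'.2.1 h2'.2.2.1.symm hne
    have k2 := h2'.2.2.2 s h2.2.1 h2.2.2.1.symm (Ne.symm hne)
    rw [o_swap] at k1
    linarith
  · obtain ⟨r0, hr0⟩ := hR
    refine ⟨r0, hr0, ?_⟩
    intro b hb c hc s hs h1 h2
    exact absurd ⟨b, hb, c, hc, s, hs, h1, h2⟩ hp

end XCY2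

open XCY2 in
theorem pr_CY2 : StTR → StNX → StSQ → StGD → StCY2 := by
  intro hTR hNX hSQ hGD R B r0 hL hB
  classical
  have hG := hGD R B r0 hL
  have hr0 := hL.mem
  have hbase := hL.pat
  have hR : R.Nonempty := ⟨r0, hr0⟩
  have hRP : ∀ {x : ℝ × ℝ}, x ∈ R → x ∈ R ∪ B := fun h => Finset.mem_union_left B h
  have hcard : (R.erase r0).card = R.card - 1 := Finset.card_erase_of_mem hr0
  have hpos : 0 < R.card := Finset.card_pos.mpr hR
  have htot : ∀ x ∈ R.erase r0, ∀ y ∈ R.erase r0, x ≠ y → 0 < o r0 x y ∨ 0 < o r0 y x := by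
    intro x hx y hy hxy
    have h1 := hG.gp r0 (hRP hr0) x (hRP (Finset.mem_of_mem_erase hx)) y
      (hRP (Finset.mem_of_mem_erase hy)) (Finset.ne_of_mem_erase hx).symm hxy
      (Finset.ne_of_mem_erase hy).symm
    rcases lt_or_gt_of_ne h1 with h | h
    · right; rw [o_swap]; linarith
    · left; exact h
  have htr : ∀ x ∈ R.erase r0, ∀ y ∈ R.erase r0, ∀ z ∈ R.erase r0, 0 < o r0 x y → 0 < o r0 y z →
      0 < o r0 x z := by
    intro x hx y hy z hz
    exact hTR (R ∪ B) r0 x y z (hG.ext r0 hr0) (hRP (Finset.mem_of_mem_erase hx))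
      (hRP (Finset.mem_of_mem_erase hy)) (hRP (Finset.mem_of_mem_erase hz))
      (Finset.ne_of_mem_erase hx) (Finset.ne_of_mem_erase hy) (Finset.ne_of_mem_erase hz)
  obtain ⟨f, hf1, hf2, hf3⟩ := exEnum (fun x y => 0 < o r0 x y) r0 (R.card - 1) (R.erase r0)
    hcard htot htr
  have hlt : ∀ a b : ℕ, a < R.card - 1 → b < R.card - 1 → 0 < o r0 (f a) (f b) → a < b := by
    intro a b ha hb hab
    rcases lt_trichotomy a b with h | h | h
    · exact h
    · subst h
      rw [o_self] at hab
      exact absurd hab (lt_irrefl _)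
    · have h2 : 0 < o r0 (f b) (f a) := hf2 b a h ha
      rw [o_swap] at h2
      linarith
  let r : ℕ → ℝ × ℝ := fun i => if i = 0 then r0 else f (i - 1)
  have hr_zero : r 0 = r0 := rfl
  have hr_succ : ∀ i, r (i + 1) = f i := fun i => rfl
  have hrm : ∀ i < R.card, r i ∈ R := by
    intro i hi
    cases i with
    | zero => exact hr0
    | succ i => rw [hr_succ]; exact Finset.mem_of_mem_erase (hf1 i (by omega))
  have hrne : ∀ i, i + 1 < R.card → r (i + 1) ≠ r0 := by
    intro i hi
    rw [hr_succ]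
    exact Finset.ne_of_mem_erase (hf1 i (by omega))
  have hri : ∀ i < R.card, ∀ j < R.card, i < j → r i ≠ r j := by
    intro i hi j hj hij
    obtain ⟨j', rfl⟩ : ∃ j', j = j' + 1 := ⟨j - 1, by omega⟩
    cases i with
    | zero => rw [hr_zero]; exact (hrne j' hj).symm
    | succ i =>
      rw [hr_succ, hr_succ]
      intro h
      have h1 : 0 < o r0 (f i) (f j') := hf2 i j' (by omega) (by omega)
      rw [h, o_self] at h1
      exact lt_irrefl _ h1
  have key : ∀ i : ℕ, ∃ zi : ℝ × ℝ, i < R.card →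
      (HullEdge (R ∪ B) (r i) (if i + 1 < R.card then r (i + 1) else r 0) ∨
      (zi ∈ B ∧ HullEdge (R ∪ B) (r i) zi ∧
        (i + 1 < R.card → HullEdge (R ∪ B) zi (r (i + 1))))) := by
    intro i
    by_cases hi : i < R.card
    swap
    · exact ⟨r0, fun h => absurd h hi⟩
    by_cases hi1 : i + 1 < R.card
    · -- StSQ
      have hpq : r i = r0 ∨ 0 < o r0 (r i) (r (i + 1)) := by
        cases i with
        | zero => left; rfl
        | succ i =>
          right
          rw [hr_succ, hr_succ]
          exact hf2 i (i + 1) (by omega) (by omega)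
      have hbet : ∀ s ∈ R, s ≠ r0 → s ≠ r i → s ≠ r (i + 1) →
          ¬ ((r i = r0 ∨ 0 < o r0 (r i) s) ∧ 0 < o r0 s (r (i + 1))) := by
        intro s hs hs0 hsi _ hcon
        obtain ⟨hc1, hc2⟩ := hcon
        obtain ⟨k, hk, rfl⟩ := hf3 s (Finset.mem_erase.mpr ⟨hs0, hs⟩)
        rw [hr_succ] at hc2
        have hki := hlt k i hk (by omega) hc2
        cases i with
        | zero => exact absurd hki (Nat.not_lt_zero k)
        | succ i =>
          rcases hc1 with hc1 | hc1
          · exact hrne i hi hc1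
          · rw [hr_succ] at hc1
            have hik := hlt i k (by omega) hk hc1
            omega
      rcases hSQ R B r0 (r i) (r (i + 1)) hG hr0 (hrm i hi) (hrm (i + 1) hi1) (hrne i hi1) hbase
        hpq hbet with h | ⟨z, hz, h1, h2⟩
      · refine ⟨r0, fun _ => Or.inl ?_⟩
        rw [if_pos hi1]
        exact h
      · exact ⟨z, fun _ => Or.inr ⟨hz, h1, fun _ => h2⟩⟩
    · -- the last point
      have hpR := hrm i hi
      obtain ⟨b, hb⟩ := hB
      have hbp : b ≠ r i := by
        intro h
        exact Finset.disjoint_left.mp hG.disj hpR (h ▸ hb)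
      obtain ⟨x, hx⟩ := hNX (R ∪ B) (r i) hG.gp (hRP hpR)
        ⟨b, Finset.mem_union_right R hb, hbp⟩ (hG.ext _ hpR)
      rcases Finset.mem_union.mp hx.2.1 with hxR | hxB
      · refine ⟨r0, fun _ => Or.inl ?_⟩
        rw [if_neg hi1, hr_zero]
        have hx0 : x = r0 := by
          by_contra hne
          obtain ⟨k, hk, hkx⟩ := hf3 x (Finset.mem_erase.mpr ⟨hne, hxR⟩)
          cases i with
          | zero => omega
          | succ i =>
            have hki : k ≠ i := by
              intro h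
              apply hx.2.2.1
              rw [hr_succ, ← hkx, h]
            have h1 : 0 < o r0 (f k) (f i) := hf2 k i (by omega) (by omega)
            have h2 := hx.2.2.2 r0 (hRP hr0) (hrne i hi).symm (Ne.symm hne)
            rw [o_cyc, hr_succ, ← hkx, o_swap] at h2
            linarith
        rw [← hx0]
        exact hx
      · exact ⟨x, fun _ => Or.inr ⟨hxB, hx, fun h => absurd h hi1⟩⟩
  choose z hz using key
  refine ⟨r, z, rfl, hrm, ?_, hz⟩
  intro i hi j hj hij
  rcases lt_trichotomy i j with h | h | h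
  · exact absurd hij (hri i hi j hj h)
  · exact h
  · exact absurd hij.symm (hri j hj i hi h)

end Pool.Agent.Work.MP_c6c039_lc.HV
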