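import Pool.Agent.Work.MP_c6c039_lc.HV.Stmts2

/-!
# HV2, item DA2: the combinatorial data of the path which starts in the base point
-/

set_option autoImplicit false

namespace Pool.Agent.Work.MP_c6c039_lc.HV

namespace XDA2

/-- The vertex before a hull vertex is unique. -/
theorem prev_unique {P : Finset (ℝ × ℝ)} {a b c : ℝ × ℝ} (h1 : HullEdge P a c)
    (h2 : HullEdge P b c) : a = b := by
  by_contra hab
  have e1 := h1.2.2.2 b h2.1 (fun h => hab h.symm) h2.2.2.1
  have e2 := h2.2.2.2 a h1.1 hab h1.2.2.1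
  unfold o at e1 e2
  nlinarith

end XDA2

/-- Item DA2: the combinatorial data of the path. -/
theorem pr_DA2 : StGD → StCY2 → StMI → StEXC → StDA2 := by
  classical
  intro _ hCY hMI hEXC R B r0 hG hB hcard
  have hm : 0 < B.card := hB.card_pos
  obtain ⟨r, z, hr0, hr, hinj, hcy⟩ := hCY R B r0 hG hB
  have hdisj : ∀ x ∈ R, ∀ y ∈ B, y ≠ x := by
    intro x hx y hy hxy
    exact (Finset.disjoint_left.mp hG.disj hx) (hxy ▸ hy)
  have hmn : ∀ i < B.card, i < R.card := by
    intro i hi
    rcases hcard with h | h <;> omega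
  have hn : 0 < R.card := hmn 0 hm
  set n := R.card with hndef
  set m := B.card with hmdef
  -- the next red point
  let nx : ℕ → ℝ × ℝ := fun i => if i + 1 < n then r (i + 1) else r 0
  have hnx : ∀ i, nx i ∈ R := by
    intro i
    change (if i + 1 < n then r (i + 1) else r 0) ∈ R
    split_ifs with h
    · exact hr _ h
    · exact hr 0 hn
  let HT : ℕ → Prop := fun i => z i ∈ B ∧ HullEdge (R ∪ B) (r i) (z i) ∧
    (i + 1 < n → HullEdge (R ∪ B) (z i) (r (i + 1)))
  have hK : ∀ i < n, ¬ HT i → HullEdge (R ∪ B) (r i) (nx i) := by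
    intro i hi hni
    rcases hcy i hi with h | h
    · exact h
    · exact absurd h hni
  set H : Finset ℕ := (Finset.range m).filter HT with hH
  set K : Finset ℕ := (Finset.range m).filter (fun i => ¬ HT i) with hKdef
  have hzinj : ∀ i ∈ H, ∀ j ∈ H, z i = z j → i = j := by
    intro i hi j hj hij
    rw [hH, Finset.mem_filter, Finset.mem_range] at hi hj
    refine hinj i (hmn i hi.1) j (hmn j hj.1) ?_
    exact XDA2.prev_unique hi.2.2.1 (by rw [hij]; exact hj.2.2.1)
  have hHcard : (H.image z).card = H.card :=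
    Finset.card_image_of_injOn (fun i hi j hj h => hzinj i hi j hj h)
  have hsub : H.image z ⊆ B := by
    intro x hx
    obtain ⟨i, hi, rfl⟩ := Finset.mem_image.mp hx
    rw [hH, Finset.mem_filter] at hi
    exact hi.2.1
  set X : Finset (ℝ × ℝ) := B \ H.image z with hX
  have hHK : H.card + K.card = m := by
    have := Finset.card_filter_add_card_filter_not (s := Finset.range m) (p := HT)
    rw [Finset.card_range] at this
    exact this
  have hXK : X.card = K.card := by
    have h1 : X.card = B.card - (H.image z).card := Finset.card_sdiff_of_subset hsub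
    rw [h1, hHcard]
    omega
  obtain ⟨s, hs1, hs2, hs3⟩ := hMI K X (fun i x => o (r i) (nx i) x) hXK (by
    intro i hi x hx
    rw [hKdef, Finset.mem_filter, Finset.mem_range] at hi
    have hin : i < n := hmn i hi.1
    have hx' : x ∈ B := (Finset.mem_sdiff.mp hx).1
    exact (hK i hin hi.2).2.2.2 x (Finset.mem_union_right _ hx') (hdisj _ (hr i hin) x hx')
      (hdisj _ (hnx i) x hx'))
  let β : ℕ → ℝ × ℝ := fun i => if HT i then z i else s i
  have hβH : ∀ i, HT i → β i = z i := fun i hi => if_pos hi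
  have hβK : ∀ i, ¬ HT i → β i = s i := fun i hi => if_neg hi
  have hsX : ∀ i < m, ¬ HT i → s i ∈ X := fun i hi hni =>
    hs1 i (Finset.mem_filter.mpr ⟨Finset.mem_range.mpr hi, hni⟩)
  have hzH : ∀ i < m, HT i → z i ∈ H.image z := fun i hi hni =>
    Finset.mem_image_of_mem z (Finset.mem_filter.mpr ⟨Finset.mem_range.mpr hi, hni⟩)
  refine ⟨r, β, hr0, ?_⟩
  have hbm : ∀ i < m, β i ∈ B := by
    intro i hi
    by_cases h : HT i
    · rw [hβH i h]
      exact h.1
    · rw [hβK i h]
      exact (Finset.mem_sdiff.mp (hsX i hi h)).1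
  refine ⟨hr, hinj, hbm, ?_, ?_, ?_⟩
  · intro i hi j hj hij
    by_cases h : HT i
    · by_cases h' : HT j
      · rw [hβH i h, hβH j h'] at hij
        exact hzinj i (Finset.mem_filter.mpr ⟨Finset.mem_range.mpr hi, h⟩) j
          (Finset.mem_filter.mpr ⟨Finset.mem_range.mpr hj, h'⟩) hij
      · rw [hβH i h, hβK j h'] at hij
        exact absurd (hij ▸ hzH i hi h) (Finset.mem_sdiff.mp (hsX j hj h')).2
    · by_cases h' : HT j
      · rw [hβK i h, hβH j h'] at hij
        exact absurd (hij ▸ hzH j hj h') (Finset.mem_sdiff.mp (hsX i hi h)).2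
      · rw [hβK i h, hβK j h'] at hij
        exact hs2 i (Finset.mem_filter.mpr ⟨Finset.mem_range.mpr hi, h⟩) j
          (Finset.mem_filter.mpr ⟨Finset.mem_range.mpr hj, h'⟩) hij
  · intro i hi
    by_cases h : HT i
    · left
      rw [hβH i h]
      exact h.2
    · right
      exact hK i (hmn i hi) h
  · intro i hi j hj hij hi' hj' w hwi hwj
    have h1 : ¬ HT i := by
      intro h
      apply hi'
      rw [hβH i h]
      exact h.2
    have h2 : ¬ HT j := by
      intro h
      apply hj'
      rw [hβH j h]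
      exact h.2
    have hin : i < n := hmn i hi
    have hjn : j < n := hmn j hj
    have hiK : i ∈ K := Finset.mem_filter.mpr ⟨Finset.mem_range.mpr hi, h1⟩
    have hjK : j ∈ K := Finset.mem_filter.mpr ⟨Finset.mem_range.mpr hj, h2⟩
    have hiB : s i ∈ B := (Finset.mem_sdiff.mp (hsX i hi h1)).1
    have hjB : s j ∈ B := (Finset.mem_sdiff.mp (hsX j hj h2)).1
    rw [hβK i h1] at hwi
    rw [hβK j h2] at hwj
    refine hEXC (R ∪ B) (r i) (nx i) (r j) (nx j) (s i) (s j) w hG.gp (hK i hin h1) (hK j hjn h2)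
      ?_ (Finset.mem_union_right _ hiB) (Finset.mem_union_right _ hjB) ?_
      (hdisj _ (hr i hin) _ hiB) (hdisj _ (hnx i) _ hiB) (hdisj _ (hr j hjn) _ hiB)
      (hdisj _ (hnx j) _ hiB) (hdisj _ (hr i hin) _ hjB) (hdisj _ (hnx i) _ hjB)
      (hdisj _ (hr j hjn) _ hjB) (hdisj _ (hnx j) _ hjB) (hs3 i hiK j hjK hij) hwi hwj
    · intro h
      exact hij (hinj i hin j hjn (Prod.mk.inj h).1)
    · intro h
      exact hij (hs2 i hiK j hjK h)

end Pool.Agent.Work.MP_c6c039_lc.HV
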