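import Pool.Agent.Work.MP_c6c039_lc.HV.Stmts2

/-! # HV2, item FT: two long blue runs, assembly -/

set_option autoImplicit false

namespace Pool.Agent.Work.MP_c6c039_lc.HV

namespace XFT

theorem o_swap (u v x : ℝ × ℝ) : o v u x = - o u v x := by
  simp only [o]
  ring

theorem o_end (u v : ℝ × ℝ) : o u v v = 0 := by
  simp only [o]
  ring

theorem o_start (u v : ℝ × ℝ) : o u v u = 0 := by
  simp only [o]
  ring

theorem mem_side {P : Finset (ℝ × ℝ)} {u v x : ℝ × ℝ} (h : x ∈ side P u v) : 0 < o u v x := by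
  simp only [side, Finset.mem_filter] at h
  exact h.2

theorem swap {R B : Finset (ℝ × ℝ)} {u v : ℝ × ℝ} (h : Two R B u v) : Two R B v u where
  disj := h.disj
  gp := h.gp
  ext := h.ext
  ma := h.mc
  mc := h.ma
  ne := h.ne.symm
  pat := fun x hx y hy s hs h1 h2 => (h.pat x hx y hy s hs h1 h2).symm

theorem half (hPA : StPA) (hJN : StJN) (hPX : StPX) (hPY : StPY) (hCT : StCT)
    (R B : Finset (ℝ × ℝ)) (u v : ℝ × ℝ) (h : Two R B u v) (hc : R.card = B.card)
    (h1 : (side R u v).card ≤ (side B u v).card)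
    (h2 : (side B u v).card ≤ (side R u v).card + 1) : ∃ l, IsPath R B l := by
  obtain ⟨c1, c2, c3, c4, c5, c6⟩ := hCT R B u v h
  have k1 : (insert v (side R u v)).card = (side B u v).card ∨
      (insert v (side R u v)).card = (side B u v).card + 1 := by omega
  have k2 : (insert v (insert u (side R v u))).card = (side B v u).card ∨
      (insert v (insert u (side R v u))).card = (side B v u).card + 1 := by omega
  obtain ⟨l1, p1⟩ := hPA _ _ v (hPY R B u v h) k1
  obtain ⟨l2, p2⟩ := hPA _ _ v (hPX R B v u (swap h)) k2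
  have q1 : ∀ x ∈ insert v (side R u v) ∪ side B u v, x ≠ v → 0 < o u v x := by
    intro x hx hxv
    rcases Finset.mem_union.1 hx with hx | hx
    · rcases Finset.mem_insert.1 hx with hx | hx
      · exact absurd hx hxv
      · exact mem_side hx
    · exact mem_side hx
  have q2 : ∀ x ∈ insert v (insert u (side R v u)) ∪ side B v u, o u v x ≤ 0 := by
    intro x hx
    have hs : ∀ P : Finset (ℝ × ℝ), x ∈ side P v u → o u v x ≤ 0 := by
      intro P hP
      have h3 := mem_side hP
      rw [o_swap] at h3
      linarith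
    rcases Finset.mem_union.1 hx with hx | hx
    · rcases Finset.mem_insert.1 hx with hx | hx
      · rw [hx, o_end]
      · rcases Finset.mem_insert.1 hx with hx | hx
        · rw [hx, o_start]
        · exact hs _ hx
    · exact hs _ hx
  have j := hJN _ _ _ _ u v l1 l2 p1 p2 q1 q2
  rw [c5, c6] at j
  exact ⟨_, j⟩

end XFT

theorem pr_FT : StPA → StJN → StPX → StPY → StCT → StFT := by
  intro hPA hJN hPX hPY hCT R B u v h hc h1 h2
  by_cases h3 : (side B u v).card ≤ (side R u v).card + 1
  · exact XFT.half hPA hJN hPX hPY hCT R B u v h hc h1 h3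
  · refine XFT.half hPA hJN hPX hPY hCT R B v u (XFT.swap h) hc h2 ?_
    obtain ⟨c1, c2, -⟩ := hCT R B u v h
    omega

end Pool.Agent.Work.MP_c6c039_lc.HV
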