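import Pool.Agent.Work.MP_c6c039_lc.HV.Stmts2

/-!
# HV2, item GD: from `Lr` to `Good`
-/

set_option autoImplicit false

namespace Pool.Agent.Work.MP_c6c039_lc.HV

namespace XGD

/-- The vertex before a hull vertex is unique. -/
theorem prev_unique {P : Finset (ℝ × ℝ)} {a b c : ℝ × ℝ} (h1 : HullEdge P a c)
    (h2 : HullEdge P b c) : a = b := by
  by_contra hab
  have e1 := h1.2.2.2 b h2.1 (fun h => hab h.symm) h2.2.2.1
  have e2 := h2.2.2.2 a h1.1 hab h1.2.2.1
  unfold o at e1 e2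
  nlinarith

end XGD

theorem pr_GD : StGD := by
  intro R B r0 h
  refine ⟨h.disj, h.gp, h.ext, ?_⟩
  intro b hb c hc r hr b' hb' c' hc' r' hr' h1 h2 h3 h4
  have e1 : r = r0 := h.pat b hb c hc r hr h1 h2
  have e2 : r' = r0 := h.pat b' hb' c' hc' r' hr' h3 h4
  rw [e1] at h2
  rw [e2] at h4
  exact XGD.prev_unique h2 h4

end Pool.Agent.Work.MP_c6c039_lc.HV
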