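import Pool.Agent.Work.MP_c6c039_lc.HV.Stmts2

/-! Item HS of block HV2: the starting point of a hull edge is extreme. -/

set_option autoImplicit false

namespace Pool.Agent.Work.MP_c6c039_lc.HV

namespace XHS

theorem aff (a b x y : ℝ × ℝ) (s t : ℝ) (h : s + t = 1) :
    o a b (s • x + t • y) = s * o a b x + t * o a b y := by
  have hs : s = 1 - t := by linarith
  subst hs
  simp only [o, Prod.fst_add, Prod.smul_fst, Prod.snd_add, Prod.smul_snd, smul_eq_mul]
  ring

theorem self (a b : ℝ × ℝ) : o a b b = 0 := by
  unfold o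
  ring

theorem convexSet (a b : ℝ × ℝ) : Convex ℝ {x : ℝ × ℝ | 0 < o a b x ∨ x = b} := by
  intro x hx y hy s t hs ht hst
  have hx' : 0 < o a b x ∨ x = b := hx
  have hy' : 0 < o a b y ∨ y = b := hy
  show 0 < o a b (s • x + t • y) ∨ s • x + t • y = b
  rw [aff a b x y s t hst]
  rcases hx' with hx' | rfl
  · rcases hs.eq_or_lt with hs0 | hs0
    · have ht1 : t = 1 := by linarith
      rw [← hs0, ht1]
      rcases hy' with hy' | rfl
      · left
        simpa using hy'
      · right
        simp
    · left
      have h1 : 0 < s * o a b x := mul_pos hs0 hx'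
      have h2 : 0 ≤ t * o a b y := by
        rcases hy' with hy' | rfl
        · exact mul_nonneg ht hy'.le
        · rw [self, mul_zero]
      linarith
  · rcases hy' with hy' | rfl
    · rcases ht.eq_or_lt with ht0 | ht0
      · have hs1 : s = 1 := by linarith
        rw [← ht0, hs1]
        right
        simp
      · left
        rw [self, mul_zero, zero_add]
        exact mul_pos ht0 hy'
    · right
      rw [← add_smul, hst, one_smul]

end XHS

theorem pr_HS : StHS := by
  intro P a b h ha
  obtain ⟨_, _, hab, hpos⟩ := h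
  have hsub : ((P : Set (ℝ × ℝ)) \ {a}) ⊆ {x : ℝ × ℝ | 0 < o a b x ∨ x = b} := by
    rintro c ⟨hc, hca⟩
    by_cases hcb : c = b
    · exact Or.inr hcb
    · exact Or.inl (hpos c hc hca hcb)
  have h1 := convexHull_min hsub (XHS.convexSet a b) ha
  rcases h1 with h1 | h1
  · have h2 : o a b a = 0 := by
      unfold o
      ring
    rw [h2] at h1
    exact lt_irrefl _ h1
  · exact hab h1

end Pool.Agent.Work.MP_c6c039_lc.HV
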