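import Pool.Agent.Work.MP_c6c039_lc.HV.Stmts2

/-!
HV2 of problem c6c039, item HY.
-/

set_option autoImplicit false

namespace Pool.Agent.Work.MP_c6c039_lc.HV

namespace XHY

theorem mem_side {P : Finset (ℝ × ℝ)} {u v x : ℝ × ℝ} :
    x ∈ side P u v ↔ x ∈ P ∧ 0 < o u v x := by
  classical
  unfold side
  rw [Finset.mem_filter]

theorem conv3 {P : Finset (ℝ × ℝ)} {x u v y : ℝ × ℝ} (hx : x ∈ P) (hu : u ∈ P) (hv : v ∈ P)
    (hxy : x ≠ y) (huy : u ≠ y) (hvy : v ≠ y) (h1 : 0 < o y u v) (h2 : 0 < o x y v)
    (h3 : 0 < o x u y) : ¬ Ext P y := by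
  intro hext
  apply hext
  have hs : 0 < o y u v + o x y v + o x u y := by linarith
  have mx : x ∈ convexHull ℝ ((P : Set (ℝ × ℝ)) \ {y}) :=
    subset_convexHull ℝ _ ⟨hx, fun h => hxy (Set.mem_singleton_iff.1 h)⟩
  have mu : u ∈ convexHull ℝ ((P : Set (ℝ × ℝ)) \ {y}) :=
    subset_convexHull ℝ _ ⟨hu, fun h => huy (Set.mem_singleton_iff.1 h)⟩
  have mv : v ∈ convexHull ℝ ((P : Set (ℝ × ℝ)) \ {y}) :=
    subset_convexHull ℝ _ ⟨hv, fun h => hvy (Set.mem_singleton_iff.1 h)⟩
  have hcv := convex_convexHull ℝ ((P : Set (ℝ × ℝ)) \ {y})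
  have key := hcv.sum_mem (t := (Finset.univ : Finset (Fin 3)))
    (w := ![o y u v / (o y u v + o x y v + o x u y), o x y v / (o y u v + o x y v + o x u y),
      o x u y / (o y u v + o x y v + o x u y)]) (z := ![x, u, v])
    (by
      intro i _
      fin_cases i
      · exact (div_pos h1 hs).le
      · exact (div_pos h2 hs).le
      · exact (div_pos h3 hs).le)
    (by
      rw [Fin.sum_univ_three]
      change o y u v / (o y u v + o x y v + o x u y) + o x y v / (o y u v + o x y v + o x u y) +
        o x u y / (o y u v + o x y v + o x u y) = 1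
      have hs0 : o y u v + o x y v + o x u y ≠ 0 := hs.ne'
      field_simp)
    (by
      intro i _
      fin_cases i
      · exact mx
      · exact mu
      · exact mv)
  rw [Fin.sum_univ_three] at key
  change (o y u v / (o y u v + o x y v + o x u y)) • x +
      (o x y v / (o y u v + o x y v + o x u y)) • u +
      (o x u y / (o y u v + o x y v + o x u y)) • v ∈ _ at key
  have e : (o y u v / (o y u v + o x y v + o x u y)) • x +
      (o x y v / (o y u v + o x y v + o x u y)) • u +
      (o x u y / (o y u v + o x y v + o x u y)) • v = y := by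
    have hs0 : o y u v + o x y v + o x u y ≠ 0 := hs.ne'
    ext
    · simp only [Prod.fst_add, Prod.smul_fst, smul_eq_mul]
      field_simp
      unfold o
      ring
    · simp only [Prod.snd_add, Prod.smul_snd, smul_eq_mul]
      field_simp
      unfold o
      ring
  rw [e] at key
  exact key

end XHY

theorem pr_HY : StHX → StHY := by
  intro hHX P u v x y hGP hu hv huv heu hev hey hyv hxy
  obtain ⟨hx, hy, hne, hpos⟩ := hxy
  have huu : o u v u = 0 := by unfold o; ring
  have hyS : y ∈ P ∧ 0 < o u v y :=
    XHY.mem_side.1 ((Finset.mem_insert.1 hy).resolve_left hyv)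
  have hyu : y ≠ u := by
    rintro rfl
    rw [huu] at hyS
    exact lt_irrefl _ hyS.2
  have hxP : x ∈ P := by
    rcases Finset.mem_insert.1 hx with h | h
    · rw [h]; exact hv
    · exact (XHY.mem_side.1 h).1
  have hxu : x ≠ u := by
    rcases Finset.mem_insert.1 hx with h | h
    · rw [h]; exact huv.symm
    · rintro rfl
      have := (XHY.mem_side.1 h).2
      rw [huu] at this
      exact lt_irrefl _ this
  have key : 0 < o x y u := by
    by_contra hcon
    have h0 : o x y u ≠ 0 := hGP x hxP y hyS.1 u hu hne hyu hxu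
    have hneg : o x y u < 0 := lt_of_le_of_ne (not_lt.1 hcon) h0
    rcases Finset.mem_insert.1 hx with h | h
    · have e : o x y u = o u v y := by rw [h]; unfold o; ring
      rw [e] at hneg
      exact lt_asymm hneg hyS.2
    · have hxS := XHY.mem_side.1 h
      have hxv : x ≠ v := by
        rintro rfl
        have e : o u x x = 0 := by unfold o; ring
        rw [e] at hxS
        exact lt_irrefl _ hxS.2
      have h1 : 0 < o x y v := hpos v (Finset.mem_insert_self _ _) hxv.symm hyv.symm
      have h2 : 0 < o y u v := by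
        have e : o y u v = o u v y := by unfold o; ring
        rw [e]; exact hyS.2
      have h3 : 0 < o x u y := by
        have e : o x u y = - o x y u := by unfold o; ring
        rw [e]; linarith
      exact XHY.conv3 hxP hu hv hne hyu.symm hyv.symm h2 h1 h3 hey
  apply hHX P u v x y hGP hu hv huv heu hev
  · refine ⟨Finset.mem_insert_of_mem hx, Finset.mem_insert_of_mem hy, hne, ?_⟩
    intro c hc hcx hcy
    rcases Finset.mem_insert.1 hc with h | h
    · rw [h]; exact key
    · exact hpos c h hcx hcy
  · exact fun h => hyv h.2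

end Pool.Agent.Work.MP_c6c039_lc.HV
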