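import Pool.Agent.Work.MP_c6c039_lc.HV.Stmts2

/-!
# HV2, item JN: joining two paths
-/

set_option autoImplicit false

namespace Pool.Agent.Work.MP_c6c039_lc.HV

namespace XJN

theorem getA (l1 l2 : List (ℝ × ℝ)) (v : ℝ × ℝ) (i : ℕ) (h : i < (l1.reverse ++ v :: l2).length)
    (hi : i < (l1.reverse ++ [v]).length) :
    (l1.reverse ++ v :: l2)[i] = (l1.reverse ++ [v])[i] := by
  have e : l1.reverse ++ v :: l2 = (l1.reverse ++ [v]) ++ l2 := by simp
  rw [List.getElem_of_eq e h, List.getElem_append_left hi]

theorem getC (l1 l2 : List (ℝ × ℝ)) (v : ℝ × ℝ) (i : ℕ) (h : i < (l1.reverse ++ v :: l2).length)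
    (hi : l1.length ≤ i) (hc : i - l1.length < (v :: l2).length) :
    (l1.reverse ++ v :: l2)[i] = (v :: l2)[i - l1.length] := by
  have hi' : l1.reverse.length ≤ i := by simpa using hi
  rw [List.getElem_append_right hi']
  simp only [List.length_reverse]

theorem o_aff (u v a b : ℝ × ℝ) (s t : ℝ) (hst : s + t = 1) :
    o u v (s • a + t • b) = s * o u v a + t * o u v b := by
  have hs : s = 1 - t := by linarith
  subst hs
  unfold o
  simp only [Prod.fst_add, Prod.snd_add, Prod.smul_fst, Prod.smul_snd, smul_eq_mul]
  ring

theorem o_end (u v : ℝ × ℝ) : o u v v = 0 := by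
  unfold o; ring

/-- points of a segment weakly right of the line -/
theorem seg_le (u v a b x : ℝ × ℝ) (ha : o u v a ≤ 0) (hb : o u v b ≤ 0)
    (hx : x ∈ segment ℝ a b) : o u v x ≤ 0 := by
  obtain ⟨s, t, hs, ht, hst, rfl⟩ := hx
  rw [o_aff u v a b s t hst]
  nlinarith

/-- points of a segment whose first end point is strictly left of the line -/
theorem seg_ge (u v a b x : ℝ × ℝ) (ha : 0 < o u v a) (hb : b ≠ v → 0 < o u v b)
    (hx : x ∈ segment ℝ a b) (h0 : o u v x ≤ 0) : b = v ∧ x = v := by
  obtain ⟨s, t, hs, ht, hst, rfl⟩ := hx
  rw [o_aff u v a b s t hst] at h0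
  by_cases hbv : b = v
  · refine ⟨hbv, ?_⟩
    subst hbv
    rw [o_end, mul_zero, add_zero] at h0
    have hs0 : s = 0 := by
      rcases hs.lt_or_eq with h | h
      · exact absurd (mul_pos h ha) (not_lt.mpr h0)
      · exact h.symm
    have ht1 : t = 1 := by linarith
    rw [hs0, ht1, zero_smul, one_smul, zero_add]
  · exfalso
    have hb' := hb hbv
    have : 0 < s * o u v a + t * o u v b := by
      rcases hs.lt_or_eq with h | h
      · have h1 := mul_pos h ha
        have h2 := mul_nonneg ht hb'.le
        linarith
      · have ht1 : t = 1 := by linarith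
        rw [← h, ht1]
        linarith
    linarith

end XJN

open XJN in
theorem pr_JN : StRV → StJN := by
  intro hRV R1 B1 R2 B2 u v l1 l2 h1 h2 hpos hneg
  have hA : IsPath R1 B1 (l1.reverse ++ [v]) := by
    have := hRV R1 B1 (v :: l1) h1
    rwa [List.reverse_cons] at this
  have hv1 : v ∉ l1 := (List.nodup_cons.mp h1.nodup).1
  have hlA : (l1.reverse ++ [v]).length = l1.length + 1 := by simp
  have hlL : (l1.reverse ++ v :: l2).length = l1.length + (v :: l2).length := by
    simp only [List.length_append, List.length_reverse]
  -- elements of the first part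
  have hAm : ∀ (i : ℕ) (hi : i < (l1.reverse ++ [v]).length),
      (l1.reverse ++ [v])[i] ≠ v → 0 < o u v (l1.reverse ++ [v])[i] := by
    intro i hi hne
    exact hpos _ ((hA.span _).mp (List.getElem_mem hi)) hne
  have hAv : ∀ (i : ℕ) (hi : i < (l1.reverse ++ [v]).length),
      (l1.reverse ++ [v])[i] = v → i = l1.length := by
    intro i hi he
    have hm : l1.length < (l1.reverse ++ [v]).length := by rw [hlA]; exact Nat.lt_succ_self _
    have hlast : (l1.reverse ++ [v])[l1.length] = v := by
      have hle : l1.reverse.length ≤ l1.length := by simp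
      rw [List.getElem_append_right hle]
      simp
    exact (hA.nodup.getElem_inj_iff).mp (he.trans hlast.symm)
  have hCm : ∀ (i : ℕ) (hi : i < (v :: l2).length), o u v (v :: l2)[i] ≤ 0 := by
    intro i hi
    exact hneg _ ((h2.span _).mp (List.getElem_mem hi))
  refine ⟨?_, ?_, ?_, ?_⟩
  · -- nodup
    rw [List.nodup_append]
    refine ⟨List.nodup_reverse.mpr (List.nodup_cons.mp h1.nodup).2, h2.nodup, ?_⟩
    intro a ha b hb hab
    subst hab
    have ha' : a ∈ l1 := List.mem_reverse.mp ha
    have hne : a ≠ v := fun h => hv1 (h ▸ ha')
    have p1 := hpos a ((h1.span a).mp (List.mem_cons_of_mem v ha')) hne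
    have p2 := hneg a ((h2.span a).mp hb)
    linarith
  · -- span
    intro p
    have e1 := h1.span p
    have e2 := h2.span p
    rw [List.mem_append, List.mem_reverse]
    rw [Finset.mem_union] at e1 e2
    rw [Finset.mem_union, Finset.mem_union, Finset.mem_union]
    constructor
    · rintro (h | h)
      · have := e1.mp (List.mem_cons_of_mem v h)
        tauto
      · have := e2.mp h
        tauto
    · intro h
      have h3 : (p ∈ R1 ∨ p ∈ B1) ∨ (p ∈ R2 ∨ p ∈ B2) := by tauto
      rcases h3 with h3 | h3
      · rcases List.mem_cons.mp (e1.mpr h3) with h4 | h4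
        · right; rw [h4]; exact List.mem_cons_self
        · left; exact h4
      · right; exact e2.mpr h3
  · -- alt
    intro i h
    by_cases hi : i + 1 < (l1.reverse ++ [v]).length
    · rw [getA l1 l2 v i _ (by omega), getA l1 l2 v (i + 1) h hi]
      have := hA.alt i hi
      simp only [Finset.mem_union]
      tauto
    · rw [hlA] at hi
      rw [hlL] at h
      have hc : i - l1.length + 1 < (v :: l2).length := by omega
      have e1 := getC l1 l2 v i (by rw [hlL]; omega) (by omega) (by omega)
      have e2 := getC l1 l2 v (i + 1) (by rw [hlL]; omega) (by omega) (by omega)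
      have e3 : i + 1 - l1.length = i - l1.length + 1 := by omega
      rw [e1, e2]
      have := h2.alt (i - l1.length) hc
      simp only [e3, Finset.mem_union]
      tauto
  · -- simple
    intro i j hij hj
    have hj' := hj
    rw [hlL] at hj'
    by_cases hjA : j + 1 < (l1.reverse ++ [v]).length
    · rw [getA l1 l2 v i _ (by omega), getA l1 l2 v (i + 1) _ (by omega),
        getA l1 l2 v j _ (by omega), getA l1 l2 v (j + 1) _ hjA]
      exact hA.simp i j hij hjA
    · rw [hlA] at hjA
      have f1 := getC l1 l2 v j (by omega) (by omega) (by omega)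
      have f2 := getC l1 l2 v (j + 1) hj (by omega) (by omega)
      have f3 : j + 1 - l1.length = j - l1.length + 1 := by omega
      by_cases him : l1.length ≤ i
      · have e1 := getC l1 l2 v i (by omega) him (by omega)
        have e2 := getC l1 l2 v (i + 1) (by omega) (by omega) (by omega)
        have e3 : i + 1 - l1.length = i - l1.length + 1 := by omega
        rw [e1, e2, f1, f2]
        have := h2.simp (i - l1.length) (j - l1.length) (by omega) (by omega)
        simp only [e3, f3]
        rw [this]
        by_cases hji : j = i + 1
        · rw [if_pos hji, if_pos (by omega)]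
        · rw [if_neg hji, if_neg (by omega)]
      · push Not at him
        have g1 := getA l1 l2 v i (by omega) (by omega)
        have g2 := getA l1 l2 v (i + 1) (by omega) (by omega)
        have hiA : i + 1 < (l1.reverse ++ [v]).length := by omega
        have hne : (l1.reverse ++ [v])[i] ≠ v := fun h => by
          have := hAv i (by omega) h
          omega
        -- the key fact
        have key : ∀ x, x ∈ segment ℝ (l1.reverse ++ [v])[i] (l1.reverse ++ [v])[i + 1] →
            x ∈ segment ℝ (v :: l2)[j - l1.length] (v :: l2)[j + 1 - l1.length] →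
            i + 1 = l1.length ∧ x = v := by
          intro x hx1 hx2
          have q := seg_le u v _ _ x (hCm _ _) (hCm _ _) hx2
          have q2 := seg_ge u v _ _ x (hAm i (by omega) hne) (hAm (i + 1) hiA) hx1 q
          exact ⟨hAv (i + 1) hiA q2.1, q2.2⟩
        rw [g1, g2, f1, f2]
        by_cases hji : j = i + 1
        · have him' : i + 1 = l1.length := by omega
          have hj0 : j - l1.length = 0 := by omega
          rw [if_pos hji]
          have hCv : (v :: l2)[j - l1.length] = v := by
            simp only [hj0, List.getElem_cons_zero]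
          have hAv' : (l1.reverse ++ [v])[i + 1] = v := by
            by_contra hne'
            have p1 := hAm (i + 1) hiA hne'
            have p2 : (l1.reverse ++ v :: l2)[i + 1] = (v :: l2)[i + 1 - l1.length] :=
              getC l1 l2 v (i + 1) (by omega) (by omega) (by omega)
            apply hne'
            rw [← g2, p2]
            have : i + 1 - l1.length = 0 := by omega
            simp only [this, List.getElem_cons_zero]
          apply Set.eq_singleton_iff_unique_mem.mpr
          constructor
          · refine ⟨?_, left_mem_segment ℝ _ _⟩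
            rw [hCv, hAv']
            exact right_mem_segment ℝ _ _
          · rintro x ⟨hx1, hx2⟩
            exact (key x hx1 hx2).2.trans hCv.symm
        · rw [if_neg hji]
          apply Set.eq_empty_iff_forall_notMem.mpr
          rintro x ⟨hx1, hx2⟩
          obtain ⟨k1, k2⟩ := key x hx1 hx2
          have hjm : 0 < j - l1.length := by omega
          have h3 := h2.simp 0 (j - l1.length) hjm (by omega)
          have hmem : x ∈ segment ℝ (v :: l2)[0] (v :: l2)[0 + 1] ∩
              segment ℝ (v :: l2)[j - l1.length] (v :: l2)[j - l1.length + 1] := by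
            refine ⟨?_, ?_⟩
            · rw [k2]
              exact left_mem_segment ℝ _ _
            · simp only [f3] at hx2
              exact hx2
          rw [h3] at hmem
          by_cases hjm1 : j - l1.length = 0 + 1
          · rw [if_pos hjm1, Set.mem_singleton_iff, k2] at hmem
            have h4 : (v :: l2)[0] = (v :: l2)[j - l1.length] := hmem
            have h5 := (h2.nodup.getElem_inj_iff).mp h4
            omega
          · rw [if_neg hjm1] at hmem
            exact hmem

end Pool.Agent.Work.MP_c6c039_lc.HV
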