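import Pool.Agent.Work.MP_c6c039_lc.HV.Stmts2

/-!
# HV2, item PX: the part left of `u v` with `u` and `v`
-/

set_option autoImplicit false

namespace Pool.Agent.Work.MP_c6c039_lc.HV

namespace XPX

theorem side_sub (P : Finset (ℝ × ℝ)) (u v : ℝ × ℝ) : side P u v ⊆ P := by
  classical
  exact Finset.filter_subset _ _

theorem mem_side (P : Finset (ℝ × ℝ)) (u v x : ℝ × ℝ) :
    x ∈ side P u v ↔ x ∈ P ∧ 0 < o u v x := by
  classical
  exact Finset.mem_filter

theorem gp_mono {P Q : Finset (ℝ × ℝ)} (h : Q ⊆ P) (hP : GP P) : GP Q :=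
  fun p hp q hq r hr h1 h2 h3 => hP p (h hp) q (h hq) r (h hr) h1 h2 h3

theorem ext_mono {P Q : Finset (ℝ × ℝ)} (h : Q ⊆ P) {a : ℝ × ℝ} (hP : Ext P a) : Ext Q a :=
  fun ha => hP (convexHull_mono (Set.sdiff_subset_sdiff_left (Finset.coe_subset.2 h)) ha)

theorem anti (u v c : ℝ × ℝ) : o c v u = -o u v c := by
  unfold o
  ring

end XPX

open XPX in
theorem pr_PX : StHX → StPX := by
  classical
  intro hHX R B u v h
  have hsub1 : insert u (insert v (side R u v)) ⊆ R := by
    intro x hx
    rcases Finset.mem_insert.1 hx with rfl | hx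
    · exact h.ma
    · rcases Finset.mem_insert.1 hx with rfl | hx
      · exact h.mc
      · exact side_sub R u v hx
  have hsub2 : side B u v ⊆ B := side_sub B u v
  have hsub : insert u (insert v (side R u v)) ∪ side B u v ⊆ R ∪ B :=
    Finset.union_subset_union hsub1 hsub2
  have heq : insert u (insert v (side R u v)) ∪ side B u v =
      insert u (insert v (side (R ∪ B) u v)) := by
    ext x
    simp only [Finset.mem_union, Finset.mem_insert, mem_side]
    tauto
  have huP : u ∈ R ∪ B := Finset.mem_union_left _ h.ma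
  have hvP : v ∈ R ∪ B := Finset.mem_union_left _ h.mc
  have hh : ∀ x ∈ B, ∀ y, HullEdge (insert u (insert v (side R u v)) ∪ side B u v) x y →
      HullEdge (R ∪ B) x y := by
    intro x hx y hxy
    rw [heq] at hxy
    refine hHX (R ∪ B) u v x y h.gp huP hvP h.ne (h.ext u h.ma) (h.ext v h.mc) hxy ?_
    rintro ⟨rfl, -⟩
    exact Finset.disjoint_left.1 h.disj h.ma hx
  refine ⟨?_, gp_mono hsub h.gp, ?_, Finset.mem_insert_self _ _, ?_⟩
  · exact Finset.disjoint_of_subset_left hsub1 (Finset.disjoint_of_subset_right hsub2 h.disj)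
  · intro r hr
    exact ext_mono hsub (h.ext r (hsub1 hr))
  · intro b hb c hc s hs hbc hcs
    have hb' := hsub2 hb
    have hc' := hsub2 hc
    rcases h.pat b hb' c hc' s (hsub1 hs) (hh b hb' c hbc) (hh c hc' s hcs) with h1 | h1
    · exact h1
    · exfalso
      subst h1
      have huc : u ≠ c := by
        rintro rfl
        exact Finset.disjoint_left.1 h.disj h.ma hc'
      have h2 := hcs.2.2.2 u (Finset.mem_union_left _ (Finset.mem_insert_self _ _)) huc h.ne
      have h3 := ((mem_side B u s c).1 hc).2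
      rw [anti] at h2
      linarith

end Pool.Agent.Work.MP_c6c039_lc.HV
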