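import Pool.Agent.Work.MP_c6c039_lc.HV.Stmts2

/-!
# MP_c6c039_lc, block HV2, item PY
-/

set_option autoImplicit false

namespace Pool.Agent.Work.MP_c6c039_lc.HV

namespace XPY

theorem mem_side {P : Finset (ℝ × ℝ)} {u v x : ℝ × ℝ} : x ∈ side P u v ↔ x ∈ P ∧ 0 < o u v x := by
  classical
  unfold side
  exact Finset.mem_filter

theorem ext_mono {P Q : Finset (ℝ × ℝ)} {a : ℝ × ℝ} (hQ : Q ⊆ P) (h : Ext P a) : Ext Q a := by
  intro ha
  apply h
  refine convexHull_mono ?_ ha
  rintro x ⟨hx, hxa⟩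
  exact ⟨hQ hx, hxa⟩

theorem gp_mono {P Q : Finset (ℝ × ℝ)} (hQ : Q ⊆ P) (h : GP P) : GP Q :=
  fun p hp q hq r hr => h p (hQ hp) q (hQ hq) r (hQ hr)

end XPY

theorem pr_PY : StHS → StHY → StPY := by
  classical
  intro hHS hHY R B u v h
  have hvR : v ∈ R := h.mc
  have huR : u ∈ R := h.ma
  have hvP : v ∈ R ∪ B := Finset.mem_union_left _ hvR
  have huP : u ∈ R ∪ B := Finset.mem_union_left _ huR
  have hQ : insert v (side R u v) ∪ side B u v = insert v (side (R ∪ B) u v) := by
    ext x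
    simp only [Finset.mem_union, Finset.mem_insert, XPY.mem_side]
    tauto
  have hsub : insert v (side R u v) ∪ side B u v ⊆ R ∪ B := by
    intro x hx
    simp only [Finset.mem_union, Finset.mem_insert, XPY.mem_side] at hx ⊢
    rcases hx with (rfl | hx) | hx
    · exact Or.inl hvR
    · exact Or.inl hx.1
    · exact Or.inr hx.1
  have hdis : ∀ x, x ∈ R → x ∈ B → False := fun x h1 h2 => Finset.disjoint_left.mp h.disj h1 h2
  refine ⟨?_, XPY.gp_mono hsub h.gp, ?_, Finset.mem_insert_self _ _, ?_⟩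
  · rw [Finset.disjoint_left]
    intro x hx hx2
    rw [XPY.mem_side] at hx2
    rw [Finset.mem_insert, XPY.mem_side] at hx
    rcases hx with rfl | hx
    · exact hdis _ hvR hx2.1
    · exact hdis _ hx.1 hx2.1
  · intro r hr
    refine XPY.ext_mono hsub (h.ext r ?_)
    rw [Finset.mem_insert, XPY.mem_side] at hr
    rcases hr with rfl | hr
    · exact hvR
    · exact hr.1
  · intro x hx y hy s hs hxy hys
    by_contra hsv
    rw [Finset.mem_insert, XPY.mem_side] at hs
    rcases hs with rfl | hs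
    · exact hsv rfl
    rw [XPY.mem_side] at hx hy
    rw [hQ] at hxy hys
    have h1 : HullEdge (R ∪ B) y s :=
      hHY (R ∪ B) u v y s h.gp huP hvP h.ne (h.ext u huR) (h.ext v hvR) (h.ext s hs.1) hsv hys
    have h2 : Ext (R ∪ B) y := hHS (R ∪ B) y s h1
    have hyv : y ≠ v := by
      rintro rfl
      exact hdis _ hvR hy.1
    have h3 : HullEdge (R ∪ B) x y :=
      hHY (R ∪ B) u v x y h.gp huP hvP h.ne (h.ext u huR) (h.ext v hvR) h2 hyv hxy
    rcases h.pat x hx.1 y hy.1 s hs.1 h3 h1 with h4 | h4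
    · have h5 := hs.2
      rw [h4] at h5
      unfold o at h5
      simp at h5
    · exact hsv h4

end Pool.Agent.Work.MP_c6c039_lc.HV
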