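import Pool.Agent.Work.MP_c6c039_lc.HV.Stmts2

set_option autoImplicit false

namespace Pool.Agent.Work.MP_c6c039_lc.HV

/-- A path can be reversed. -/
theorem pr_RV : StRV := by
  intro R B l h
  refine ⟨List.nodup_reverse.2 h.nodup, ?_, ?_, ?_⟩
  · intro p
    rw [List.mem_reverse]
    exact h.span p
  · intro i hi
    have hl : l.reverse.length = l.length := List.length_reverse
    rw [hl] at hi
    rw [List.getElem_reverse, List.getElem_reverse]
    have := h.alt (l.length - 1 - (i + 1)) (by omega)
    have e : l.length - 1 - (i + 1) + 1 = l.length - 1 - i := by omega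
    simp only [e] at this
    tauto
  · intro i j hij hj
    have hl : l.reverse.length = l.length := List.length_reverse
    rw [hl] at hj
    rw [List.getElem_reverse, List.getElem_reverse, List.getElem_reverse, List.getElem_reverse]
    have := h.simp (l.length - 1 - (j + 1)) (l.length - 1 - (i + 1)) (by omega) (by omega)
    have e1 : l.length - 1 - (i + 1) + 1 = l.length - 1 - i := by omega
    have e2 : l.length - 1 - (j + 1) + 1 = l.length - 1 - j := by omega
    simp only [e1, e2] at this
    rw [Set.inter_comm, segment_symm ℝ, segment_symm ℝ (l[l.length - 1 - i])] 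
    rw [this]
    by_cases hji : j = i + 1
    · subst hji
      rw [if_pos rfl, if_pos (by omega)]
    · rw [if_neg hji, if_neg (by omega)]

end Pool.Agent.Work.MP_c6c039_lc.HV
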