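import Pool.Agent.Work.MP_c6c039_lc.HV.All
import Pool.Agent.Work.MP_c6c039_lc.HV.I_GD
import Pool.Agent.Work.MP_c6c039_lc.HV.I_CY2
import Pool.Agent.Work.MP_c6c039_lc.HV.I_DA2
import Pool.Agent.Work.MP_c6c039_lc.HV.I_AS2
import Pool.Agent.Work.MP_c6c039_lc.HV.I_PA
import Pool.Agent.Work.MP_c6c039_lc.HV.I_RV
import Pool.Agent.Work.MP_c6c039_lc.HV.I_JN
import Pool.Agent.Work.MP_c6c039_lc.HV.I_HS
import Pool.Agent.Work.MP_c6c039_lc.HV.I_HX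
import Pool.Agent.Work.MP_c6c039_lc.HV.I_HY
import Pool.Agent.Work.MP_c6c039_lc.HV.I_PX
import Pool.Agent.Work.MP_c6c039_lc.HV.I_PY
import Pool.Agent.Work.MP_c6c039_lc.HV.I_CT
import Pool.Agent.Work.MP_c6c039_lc.HV.I_FT

/-!
# HV2: assembly
-/

set_option autoImplicit false

namespace Pool.Agent.Work.MP_c6c039_lc.HV

/-- The theorem with two long runs. -/
theorem main2 : StFT :=
  have hTR : StTR := pr_TR pr_FN
  have hNX : StNX := pr_NX hTR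
  have hRU : StRU := pr_RU hTR hNX pr_HD pr_TI
  have hSQ : StSQ := pr_SQ hTR hNX pr_HD pr_TI hRU
  have hCY2 : StCY2 := pr_CY2 hTR hNX hSQ pr_GD
  have hPA : StPA := pr_PA (pr_DA2 pr_GD hCY2 pr_MI pr_EXC) pr_HE pr_AS2
  pr_FT hPA (pr_JN pr_RV) (pr_PX pr_HX) (pr_PY pr_HS (pr_HY pr_HX)) pr_CT

end Pool.Agent.Work.MP_c6c039_lc.HV
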