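import Pool.Agent.Work.MP_c6c039_lc.HV.Stmts3

/-!
# HV3, item FM: the mirror image of the theorem with two long blue runs
-/

set_option autoImplicit false

namespace Pool.Agent.Work.MP_c6c039_lc.HV

theorem pr_FM : StFT → StMP → StMT → StMC → StFM := by
  intro hFT hMP hMT hMC R B u v h hc h1 h2
  obtain ⟨l, hl⟩ := hFT (R.image rf) (B.image rf) (rf u) (rf v) (hMT R B u v h)
    (by rw [(hMC R u v).2, (hMC B u v).2, hc])
    (by rw [(hMC R u v).1, (hMC B u v).1]; exact h2)
    (by rw [(hMC R v u).1, (hMC B v u).1]; exact h1)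
  exact ⟨l.map rf, hMP R B l hl⟩

end Pool.Agent.Work.MP_c6c039_lc.HV
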