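import Pool.Agent.Work.MP_c6c039_lc.HV.Stmts3

/-!
# HV3, item MC: the points on the two sides are exchanged by the reflection
-/

set_option autoImplicit false

namespace Pool.Agent.Work.MP_c6c039_lc.HV

namespace XMC

theorem rf_rf (x : ℝ × ℝ) : rf (rf x) = x := by
  unfold rf
  ext <;> simp

theorem rf_inj : Function.Injective rf := fun x y h => by
  rw [← rf_rf x, h, rf_rf]

theorem o_rf (u v x : ℝ × ℝ) : o (rf u) (rf v) (rf x) = o v u x := by
  unfold o rf
  ring

theorem side_rf (R : Finset (ℝ × ℝ)) (u v : ℝ × ℝ) :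
    side (R.image rf) (rf u) (rf v) = (side R v u).image rf := by
  ext x
  unfold side
  simp only [Finset.mem_filter, Finset.mem_image]
  constructor
  · rintro ⟨⟨y, hy, rfl⟩, h⟩
    exact ⟨y, ⟨hy, by rwa [o_rf] at h⟩, rfl⟩
  · rintro ⟨y, ⟨hy, h⟩, rfl⟩
    exact ⟨⟨y, hy, rfl⟩, by rwa [o_rf]⟩

end XMC

open XMC

theorem pr_MC : StMC := by
  intro R u v
  refine ⟨?_, Finset.card_image_of_injective R rf_inj⟩
  rw [side_rf, Finset.card_image_of_injective _ rf_inj]

end Pool.Agent.Work.MP_c6c039_lc.HV
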