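import Pool.Agent.Work.MP_c6c039_lc.HV.Stmts3

set_option autoImplicit false

namespace Pool.Agent.Work.MP_c6c039_lc.HV

namespace XMP

theorem rf_rf (x : ℝ × ℝ) : rf (rf x) = x := by
  simp [rf]

theorem rf_inj : Function.Injective rf := fun x y h => by
  rw [← rf_rf x, h, rf_rf]

theorem rf_mem {R : Finset (ℝ × ℝ)} {x : ℝ × ℝ} : x ∈ R.image rf ↔ rf x ∈ R := by
  rw [Finset.mem_image]
  constructor
  · rintro ⟨y, hy, rfl⟩
    rw [rf_rf]; exact hy
  · intro h
    exact ⟨rf x, h, rf_rf x⟩

theorem rf_comb (s t : ℝ) (x y : ℝ × ℝ) : rf (s • x + t • y) = s • rf x + t • rf y := by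
  simp only [rf, Prod.fst_add, Prod.snd_add, Prod.smul_fst, Prod.smul_snd, smul_eq_mul,
    Prod.smul_mk, Prod.mk_add_mk, Prod.mk.injEq]
  constructor
  · trivial
  · ring

theorem rf_seg {x a b : ℝ × ℝ} : x ∈ segment ℝ (rf a) (rf b) ↔ rf x ∈ segment ℝ a b := by
  constructor
  · rintro ⟨s, t, hs, ht, hst, rfl⟩
    refine ⟨s, t, hs, ht, hst, ?_⟩
    rw [rf_comb, rf_rf, rf_rf]
  · rintro ⟨s, t, hs, ht, hst, h⟩
    refine ⟨s, t, hs, ht, hst, ?_⟩
    rw [← rf_rf x, ← h, rf_comb]

end XMP

open XMP in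
/-- A path can be reflected. -/
theorem pr_MP : StMP := by
  intro R B l h
  refine ⟨h.nodup.map rf_inj, ?_, ?_, ?_⟩
  · intro p
    rw [List.mem_map]
    constructor
    · rintro ⟨y, hy, rfl⟩
      have := (h.span y).1 hy
      rw [Finset.mem_union, rf_mem, rf_mem] at this
      rw [Finset.mem_union]
      exact this
    · intro hp
      refine ⟨rf p, ?_, rf_rf p⟩
      rw [h.span, Finset.mem_union, rf_mem, rf_mem, rf_rf]
      exact Finset.mem_union.1 hp
  · intro i hi
    have hl : (l.map rf).length = l.length := List.length_map _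
    rw [hl] at hi
    rw [List.getElem_map, List.getElem_map]
    have := h.alt i hi
    rw [rf_mem, rf_mem, rf_mem, rf_mem] at this
    exact this
  · intro i j hij hj
    have hl : (l.map rf).length = l.length := List.length_map _
    rw [hl] at hj
    rw [List.getElem_map, List.getElem_map, List.getElem_map, List.getElem_map]
    have := h.simp i j hij hj
    ext x
    rw [Set.mem_inter_iff, rf_seg, rf_seg, ← Set.mem_inter_iff, this]
    by_cases hji : j = i + 1
    · rw [if_pos hji, if_pos hji, Set.mem_singleton_iff, Set.mem_singleton_iff]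
      constructor
      · intro e; rw [← e, rf_rf]
      · intro e; rw [e, rf_rf]
    · rw [if_neg hji, if_neg hji]
      simp

end Pool.Agent.Work.MP_c6c039_lc.HV
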