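import Pool.Agent.Work.MP_c6c039_lc.HV.Stmts3

/-!
# MP_c6c039_lc, block HV3, item MT
-/

set_option autoImplicit false

namespace Pool.Agent.Work.MP_c6c039_lc.HV

namespace XMT

theorem rf_rf (x : ℝ × ℝ) : rf (rf x) = x := by
  ext <;> simp [rf]

theorem rf_inj : Function.Injective rf := fun x y h => by
  rw [← rf_rf x, h, rf_rf]

theorem o_rf (u v x : ℝ × ℝ) : o (rf u) (rf v) (rf x) = o v u x := by
  unfold o rf
  ring

theorem o_rf_neg (u v x : ℝ × ℝ) : o (rf u) (rf v) (rf x) = -o u v x := by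
  unfold o rf
  ring

/-- The reflection as a linear map. -/
noncomputable def L : (ℝ × ℝ) →ₗ[ℝ] (ℝ × ℝ) where
  toFun := rf
  map_add' x y := by
    ext
    · rfl
    · show -(x.2 + y.2) = -x.2 + -y.2
      ring
  map_smul' c x := by
    ext
    · rfl
    · show -(c * x.2) = c * -x.2
      ring

theorem ext_rf {P : Finset (ℝ × ℝ)} {a : ℝ × ℝ} (h : Ext P a) : Ext (P.image rf) (rf a) := by
  intro ha
  apply h
  have h1 : L (rf a) ∈ L '' convexHull ℝ (((P.image rf : Finset (ℝ × ℝ)) : Set (ℝ × ℝ)) \ {rf a}) :=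
    ⟨rf a, ha, rfl⟩
  rw [LinearMap.image_convexHull] at h1
  have h2 : L (rf a) = a := rf_rf a
  rw [h2] at h1
  refine convexHull_mono ?_ h1
  rintro _ ⟨y, ⟨hy, hya⟩, rfl⟩
  rw [Finset.coe_image] at hy
  obtain ⟨z, hz, rfl⟩ := hy
  have h3 : L (rf z) = z := rf_rf z
  rw [h3]
  refine ⟨hz, ?_⟩
  intro hza
  apply hya
  rw [Set.mem_singleton_iff] at hza ⊢
  rw [hza]

theorem gp_rf {P : Finset (ℝ × ℝ)} (h : GP P) : GP (P.image rf) := by
  intro p hp q hq r hr hpq hqr hpr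
  obtain ⟨p', hp', rfl⟩ := Finset.mem_image.mp hp
  obtain ⟨q', hq', rfl⟩ := Finset.mem_image.mp hq
  obtain ⟨r', hr', rfl⟩ := Finset.mem_image.mp hr
  rw [o_rf_neg, neg_ne_zero]
  exact h p' hp' q' hq' r' hr' (fun e => hpq (by rw [e])) (fun e => hqr (by rw [e]))
    (fun e => hpr (by rw [e]))

theorem mem_rf {P : Finset (ℝ × ℝ)} {x : ℝ × ℝ} (h : rf x ∈ P.image rf) : x ∈ P := by
  obtain ⟨y, hy, hyx⟩ := Finset.mem_image.mp h
  rwa [← rf_inj hyx]

theorem edge_rf {P : Finset (ℝ × ℝ)} {x y : ℝ × ℝ} (h : HullEdge (P.image rf) (rf x) (rf y)) :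
    HullEdge P y x := by
  obtain ⟨h1, h2, h3, h4⟩ := h
  refine ⟨mem_rf h2, mem_rf h1, fun e => h3 (by rw [e]), ?_⟩
  intro c hc hcy hcx
  have h5 := h4 (rf c) (Finset.mem_image_of_mem _ hc) (fun e => hcx (rf_inj e))
    (fun e => hcy (rf_inj e))
  rwa [o_rf] at h5

end XMT

theorem pr_MT : StMT := by
  intro R B a c h
  have hU : R.image rf ∪ B.image rf = (R ∪ B).image rf := (Finset.image_union R B).symm
  refine ⟨(Finset.disjoint_image XMT.rf_inj).mpr h.disj, ?_, ?_, Finset.mem_image_of_mem _ h.ma,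
    Finset.mem_image_of_mem _ h.mc, fun e => h.ne (XMT.rf_inj e), ?_⟩
  · rw [hU]
    exact XMT.gp_rf h.gp
  · intro r hr
    obtain ⟨r', hr', rfl⟩ := Finset.mem_image.mp hr
    rw [hU]
    exact XMT.ext_rf (h.ext r' hr')
  · intro x hx y hy s hs h1 h2
    obtain ⟨x', hx', rfl⟩ := Finset.mem_image.mp hx
    obtain ⟨y', hy', rfl⟩ := Finset.mem_image.mp hy
    obtain ⟨s', hs', rfl⟩ := Finset.mem_image.mp hs
    rw [hU] at h1 h2
    rcases h.pat y' hy' x' hx' s' hs' (XMT.edge_rf h2) (XMT.edge_rf h1) with e | e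
    · exact Or.inl (by rw [e])
    · exact Or.inr (by rw [e])

end Pool.Agent.Work.MP_c6c039_lc.HV
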