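import Pool.Agent.Work.MP_c6c039_lc.HV.All2
import Pool.Agent.Work.MP_c6c039_lc.HV.I_MP
import Pool.Agent.Work.MP_c6c039_lc.HV.I_MT
import Pool.Agent.Work.MP_c6c039_lc.HV.I_MC
import Pool.Agent.Work.MP_c6c039_lc.HV.I_FM

/-!
# HV3: assembly
-/

set_option autoImplicit false

namespace Pool.Agent.Work.MP_c6c039_lc.HV

/-- The mirror image. -/
theorem main3 : StFM := pr_FM main2 pr_MP pr_MT pr_MC

end Pool.Agent.Work.MP_c6c039_lc.HV
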