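import Pool.Agent.Work.MP_c6c039_lc.HV.Stmts

/-! Item [c6c039 HV FN]: an extreme point has an open half plane of its own. -/

set_option autoImplicit false

namespace Pool.Agent.Work.MP_c6c039_lc.HV

theorem XFN.lin (f : (ℝ × ℝ) →L[ℝ] ℝ) (x : ℝ × ℝ) : f x = f (1, 0) * x.1 + f (0, 1) * x.2 := by
  have h : x = x.1 • ((1, 0) : ℝ × ℝ) + x.2 • ((0, 1) : ℝ × ℝ) := by
    ext <;> simp
  conv_lhs => rw [h]
  rw [map_add, map_smul, map_smul, smul_eq_mul, smul_eq_mul]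
  ring

theorem pr_FN : StFN := by
  intro P a ha
  have hfin : ((P : Set (ℝ × ℝ)) \ {a}).Finite := P.finite_toSet.subset Set.sdiff_subset
  obtain ⟨f, c, h1, h2⟩ := geometric_hahn_banach_point_closed
    (convex_convexHull ℝ ((P : Set (ℝ × ℝ)) \ {a})) (hfin.isCompact_convexHull (𝕜 := ℝ)).isClosed ha
  refine ⟨f (1, 0), f (0, 1), fun x hx hxa => ?_⟩
  have h3 : c < f x := h2 x (subset_convexHull ℝ _ ⟨hx, hxa⟩)
  have h4 : f a < f x := h1.trans h3
  rw [XFN.lin f a, XFN.lin f x] at h4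
  linarith

end Pool.Agent.Work.MP_c6c039_lc.HV
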