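import Pool.Agent.Work.MP_c6c039_lc.HV.Stmts2

set_option autoImplicit false

namespace Pool.Agent.Work.MP_c6c039_lc.HV

namespace XHX

lemma three {S : Set (ℝ × ℝ)} (hS : Convex ℝ S) {p w v u : ℝ × ℝ} (hp : p ∈ S) (hw : w ∈ S)
    (hv : v ∈ S) {a b c d : ℝ} (ha : 0 < a) (hb : 0 < b) (hc : 0 < c) (hd : a + b + c = d)
    (h1 : d * u.1 = a * p.1 + b * w.1 + c * v.1)
    (h2 : d * u.2 = a * p.2 + b * w.2 + c * v.2) : u ∈ S := by
  have hab : 0 < a + b := by linarith
  have hd0 : 0 < d := by linarith
  have hz : (a / (a + b)) • p + (b / (a + b)) • w ∈ S :=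
    hS hp hw (by positivity) (by positivity) (by field_simp)
  have hy := hS hz hv (a := (a + b) / d) (b := c / d) (by positivity) (by positivity)
    (by rw [← add_div, hd]; exact div_self hd0.ne')
  have hu : u = ((a + b) / d) • ((a / (a + b)) • p + (b / (a + b)) • w) + (c / d) • v := by
    apply Prod.ext
    · simp only [Prod.fst_add, Prod.smul_fst, smul_eq_mul]
      field_simp
      linarith
    · simp only [Prod.snd_add, Prod.smul_snd, smul_eq_mul]
      field_simp
      linarith
  rw [hu]
  exact hy

lemma ext_three {P : Finset (ℝ × ℝ)} {p w v u : ℝ × ℝ} (hu : Ext P u) (hp : p ∈ P) (hw : w ∈ P)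
    (hv : v ∈ P) (hpu : p ≠ u) (hwu : w ≠ u) (hvu : v ≠ u) {a b c d : ℝ} (ha : 0 < a)
    (hb : 0 < b) (hc : 0 < c) (hd : a + b + c = d)
    (h1 : d * u.1 = a * p.1 + b * w.1 + c * v.1)
    (h2 : d * u.2 = a * p.2 + b * w.2 + c * v.2) : False := by
  apply hu
  refine three (convex_convexHull ℝ _) (p := p) (w := w) (v := v) ?_ ?_ ?_ ha hb hc hd h1 h2
  · exact subset_convexHull ℝ _ ⟨by simpa using hp, by simpa using hpu⟩
  · exact subset_convexHull ℝ _ ⟨by simpa using hw, by simpa using hwu⟩
  · exact subset_convexHull ℝ _ ⟨by simpa using hv, by simpa using hvu⟩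

/-- the main step -/
lemma key {P : Finset (ℝ × ℝ)} {u v x y p w : ℝ × ℝ} (hu : u ∈ P) (hv : v ∈ P) (huv : u ≠ v)
    (eu : Ext P u) (ev : Ext P v) (hp : p ∈ P) (hw : w ∈ P) (hpu : p ≠ u) (hpv : p ≠ v)
    (hwu : w ≠ u) (hwv : w ≠ v) (h0 : 0 < o u v p) (hwn : o u v w < 0) (hxp : o x y p = 0)
    (hxu : 0 ≤ o x y u) (hxv : 0 ≤ o x y v) : 0 ≤ o x y w := by
  by_contra hneg
  push_neg at hneg
  have e1 : o p w v * o x y u - o p w u * o x y v = o u v p * o x y w - o u v w * o x y p := by
    unfold o; ring
  have e2 : o p w v - o p w u = o u v p - o u v w := by unfold o; ring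
  rw [hxp] at e1
  have hpos : o u v p * o x y w < 0 := mul_neg_of_pos_of_neg h0 hneg
  by_cases hA : 0 < o p w u
  · refine ext_three eu hp hw hv hpu hwu huv.symm (a := - o u v w) (b := o u v p)
      (c := o p w u) (d := o p w v) (by linarith) h0 hA (by linarith) ?_ ?_
    · unfold o; ring
    · unfold o; ring
  · push_neg at hA
    by_cases hB : o p w v < 0
    · refine ext_three ev hp hw hu hpv hwv huv (a := - o u v w) (b := o u v p)
        (c := - o p w v) (d := - o p w u) (by linarith) h0 (by linarith) (by linarith) ?_ ?_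
      · unfold o; ring
      · unfold o; ring
    · push_neg at hB
      have h3 : 0 ≤ o p w v * o x y u := mul_nonneg hB hxu
      have h4 : o p w u * o x y v ≤ 0 := mul_nonpos_of_nonpos_of_nonneg hA hxv
      linarith

end XHX

theorem pr_HX : StHX := by
  intro P u v x y hgp hu hv huv eu ev hE hne
  obtain ⟨hxQ, hyQ, hxy, hpos⟩ := hE
  have hsub : ∀ z ∈ insert u (insert v (side P u v)), z ∈ P := by
    intro z hz
    rw [Finset.mem_insert, Finset.mem_insert] at hz
    rcases hz with h | h | h
    · rw [h]; exact hu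
    · rw [h]; exact hv
    · exact (Finset.mem_filter.mp h).1
  have hx := hsub x hxQ
  have hy := hsub y hyQ
  refine ⟨hx, hy, hxy, ?_⟩
  intro w hw hwx hwy
  by_cases hwQ : w ∈ insert u (insert v (side P u v))
  · exact hpos w hwQ hwx hwy
  · rw [Finset.mem_insert, Finset.mem_insert, not_or, not_or] at hwQ
    obtain ⟨hwu, hwv, hws⟩ := hwQ
    have hwn : o u v w < 0 := by
      have h1 : ¬ 0 < o u v w := fun h => hws (Finset.mem_filter.mpr ⟨hw, h⟩)
      have h2 : o u v w ≠ 0 := hgp u hu v hv w hw huv (Ne.symm hwv) (Ne.symm hwu)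
      exact lt_of_le_of_ne (not_lt.mp h1) h2
    have h2 : o x y w ≠ 0 := hgp x hx y hy w hw hxy (Ne.symm hwy) (Ne.symm hwx)
    refine lt_of_le_of_ne ?_ (Ne.symm h2)
    have hnn : ∀ z ∈ insert u (insert v (side P u v)), 0 ≤ o x y z := by
      intro z hz
      by_cases h3 : z = x
      · rw [h3]; unfold o; simp
      · by_cases h4 : z = y
        · rw [h4]; unfold o
          have : (y.1 - x.1) * (y.2 - x.2) - (y.2 - x.2) * (y.1 - x.1) = 0 := by ring
          rw [this]
        · exact (hpos z hz h3 h4).le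
    have hxu : 0 ≤ o x y u := hnn u (Finset.mem_insert_self _ _)
    have hxv : 0 ≤ o x y v := hnn v (Finset.mem_insert_of_mem (Finset.mem_insert_self _ _))
    have hp : (∃ p ∈ P, p ≠ u ∧ p ≠ v ∧ 0 < o u v p ∧ o x y p = 0) ∨ (x = v ∧ y = u) := by
      rw [Finset.mem_insert, Finset.mem_insert] at hxQ hyQ
      rcases hxQ with h1 | h1 | h1
      · rcases hyQ with h3 | h3 | h3
        · exact absurd (h1.trans h3.symm) hxy
        · exact absurd ⟨h1, h3⟩ hne
        · left
          refine ⟨y, hy, ?_, ?_, (Finset.mem_filter.mp h3).2, ?_⟩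
          · rintro rfl; exact hxy h1
          · rintro rfl
            have := (Finset.mem_filter.mp h3).2
            unfold o at this
            have h5 : (y.1 - u.1) * (y.2 - u.2) - (y.2 - u.2) * (y.1 - u.1) = 0 := by ring
            rw [h5] at this
            exact lt_irrefl _ this
          · unfold o; ring
      · rcases hyQ with h3 | h3 | h3
        · right; exact ⟨h1, h3⟩
        · exact absurd (h1.trans h3.symm) hxy
        · left
          refine ⟨y, hy, ?_, ?_, (Finset.mem_filter.mp h3).2, ?_⟩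
          · rintro rfl
            have := (Finset.mem_filter.mp h3).2
            unfold o at this
            simp at this
          · rintro rfl; exact hxy h1
          · unfold o; ring
      · left
        refine ⟨x, hx, ?_, ?_, (Finset.mem_filter.mp h1).2, ?_⟩
        · rintro rfl
          have := (Finset.mem_filter.mp h1).2
          unfold o at this
          simp at this
        · rintro rfl
          have := (Finset.mem_filter.mp h1).2
          unfold o at this
          have h5 : (x.1 - u.1) * (x.2 - u.2) - (x.2 - u.2) * (x.1 - u.1) = 0 := by ring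
          rw [h5] at this
          exact lt_irrefl _ this
        · unfold o; simp
    rcases hp with ⟨p, hpP, hpu, hpv, hp0, hxp⟩ | ⟨h1, h3⟩
    · exact XHX.key hu hv huv eu ev hpP hw hpu hpv hwu hwv hp0 hwn hxp hxu hxv
    · rw [h1, h3]
      have : o v u w = - o u v w := by unfold o; ring
      rw [this]
      linarith

end Pool.Agent.Work.MP_c6c039_lc.HV
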