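import Pool.Agent.Work.MP_c6c039_lc.HV.Stmts

/-!
# MI: a bijection with the smallest product
-/

set_option autoImplicit false

namespace Pool.Agent.Work.MP_c6c039_lc.HV

namespace XMI

/-- splitting off two factors -/
theorem split {ι : Type*} [Fintype ι] [DecidableEq ι] (g : ι → ℝ) (i j : ι) (h : i ≠ j) :
    ∏ k, g k = g i * g j * ∏ k ∈ (Finset.univ.erase i).erase j, g k := by
  rw [← Finset.mul_prod_erase Finset.univ g (Finset.mem_univ i),
    ← Finset.mul_prod_erase (Finset.univ.erase i) g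
      (Finset.mem_erase.2 ⟨fun e => h e.symm, Finset.mem_univ j⟩), mul_assoc]

theorem main (K : Finset ℕ) (X : Finset (ℝ × ℝ)) (F : ℕ → ℝ × ℝ → ℝ) (hc : X.card = K.card)
    (hF : ∀ i ∈ K, ∀ x ∈ X, 0 < F i x) :
    ∃ σ : K ≃ X, ∀ i j : K, i ≠ j →
      F i (σ i : ℝ × ℝ) * F j (σ j : ℝ × ℝ) ≤ F i (σ j : ℝ × ℝ) * F j (σ i : ℝ × ℝ) := by
  classical
  have : Nonempty (K ≃ X) := ⟨Finset.equivOfCardEq hc.symm⟩
  obtain ⟨σ, hσ⟩ := Finite.exists_min (fun τ : K ≃ X => ∏ k : K, F k (τ k : ℝ × ℝ))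
  refine ⟨σ, fun i j hij => ?_⟩
  have h := hσ ((Equiv.swap i j).trans σ)
  rw [split (fun k : K => F k (σ k : ℝ × ℝ)) i j hij,
    split (fun k : K => F k (((Equiv.swap i j).trans σ) k : ℝ × ℝ)) i j hij] at h
  have e1 : ((Equiv.swap i j).trans σ) i = σ j := by simp
  have e2 : ((Equiv.swap i j).trans σ) j = σ i := by simp
  have e3 : ∏ k ∈ (Finset.univ.erase i).erase j, F k (((Equiv.swap i j).trans σ) k : ℝ × ℝ)
      = ∏ k ∈ (Finset.univ.erase i).erase j, F k (σ k : ℝ × ℝ) := by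
    refine Finset.prod_congr rfl fun k hk => ?_
    have hkj : k ≠ j := (Finset.mem_erase.1 hk).1
    have hki : k ≠ i := (Finset.mem_erase.1 (Finset.mem_erase.1 hk).2).1
    rw [Equiv.trans_apply, Equiv.swap_apply_of_ne_of_ne hki hkj]
  rw [e1, e2, e3] at h
  have hpos : 0 < ∏ k ∈ (Finset.univ.erase i).erase j, F k (σ k : ℝ × ℝ) :=
    Finset.prod_pos fun k _ => hF k k.2 _ (σ k).2
  exact le_of_mul_le_mul_right h hpos

end XMI

/-- MI -/
theorem pr_MI : StMI := by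
  intro K X F hc hF
  obtain ⟨σ, hσ⟩ := XMI.main K X F hc hF
  classical
  refine ⟨fun i => if h : i ∈ K then (σ ⟨i, h⟩ : ℝ × ℝ) else 0, ?_, ?_, ?_⟩
  · intro i hi
    simp only [dif_pos hi]
    exact (σ ⟨i, hi⟩).2
  · intro i hi j hj h
    simp only [dif_pos hi, dif_pos hj] at h
    have h2 := σ.injective (Subtype.ext h)
    exact congrArg Subtype.val h2
  · intro i hi j hj hij
    simp only [dif_pos hi, dif_pos hj]
    exact hσ ⟨i, hi⟩ ⟨j, hj⟩ fun e => hij (congrArg Subtype.val e)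

end Pool.Agent.Work.MP_c6c039_lc.HV
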