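import Mathlib
import Pool.Agent.Work.MP_c6c039_lc.Defs

/-!
# HV: all red points on the hull, at most one long blue run

THEOREM.  `R`, `B` balanced, general position, every red point is a vertex of the convex hull, at
most one run of consecutive blue hull vertices has two or more points.  Then there is a simple
spanning alternating path.

PROOF.  Let `r 0, r 1, ..` be the red points in counterclockwise order, `r 0` the red point after
the long blue run, if there is one.  Between `r i` and `r (i + 1)` the hull has no vertex (a red-red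
hull edge) or one blue vertex `z i`.  Red-red hull edges `e` get distinct blue points `σ e` from the
remaining blue points, such that the PRODUCT of the distances of `σ e` from the line of `e` is
minimal; then the triangles over the red-red hull edges are pairwise disjoint outside their common
vertices.  The path is `r 0, β 0, r 1, β 1, ..` with `β i = z i` or `β i = σ (r i, r (i + 1))`.

Everything lives in `ℝ × ℝ`.
-/

set_option autoImplicit false

namespace Pool.Agent.Work.MP_c6c039_lc.HV

/-- Twice the signed area of `a b c`; positive if `c` is strictly left of the directed line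
`a b`. -/
def o (a b c : ℝ × ℝ) : ℝ := (b.1 - a.1) * (c.2 - a.2) - (b.2 - a.2) * (c.1 - a.1)

/-- `a b` is a counterclockwise hull edge of `P`: all the other points are strictly left of it. -/
def HullEdge (P : Finset (ℝ × ℝ)) (a b : ℝ × ℝ) : Prop :=
  a ∈ P ∧ b ∈ P ∧ a ≠ b ∧ ∀ c ∈ P, c ≠ a → c ≠ b → 0 < o a b c

/-- general position -/
def GP (P : Finset (ℝ × ℝ)) : Prop :=
  ∀ p ∈ P, ∀ q ∈ P, ∀ r ∈ P, p ≠ q → q ≠ r → p ≠ r → o p q r ≠ 0

/-- `a` is not in the convex hull of the other points. -/
def Ext (P : Finset (ℝ × ℝ)) (a : ℝ × ℝ) : Prop :=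
  a ∉ convexHull ℝ ((P : Set (ℝ × ℝ)) \ {a})

/-- FN (EASY-MEDIUM).  An extreme point has an open half plane of its own: Hahn-Banach
(`geometric_hahn_banach_point_closed` or `_compact_point`; the convex hull of a finite set is
compact, `Set.Finite.isCompact_convexHull`), a continuous linear functional on `ℝ × ℝ` is
`x ↦ u * x.1 + v * x.2`.  If `P \ {a}` is empty take `u = v = 0`. -/
def StFN : Prop := ∀ (P : Finset (ℝ × ℝ)) (a : ℝ × ℝ), Ext P a →
  ∃ u v : ℝ, ∀ x ∈ P, x ≠ a → 0 < u * (x.1 - a.1) + v * (x.2 - a.2)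

/-- TR (EASY, hypothesis StFN).  The angular order at an extreme point is transitive.
With `f x = u * (x.1 - a.1) + v * (x.2 - a.2)` one has (ring)
`f y * o a x z = f x * o a y z + f z * o a x y`. -/
def StTR : Prop := ∀ (P : Finset (ℝ × ℝ)) (a x y z : ℝ × ℝ), Ext P a → x ∈ P → y ∈ P → z ∈ P →
  x ≠ a → y ≠ a → z ≠ a → 0 < o a x y → 0 < o a y z → 0 < o a x z

/-- NX (MEDIUM, hypothesis StTR).  An extreme point `a` has a next hull vertex: the minimum of the
total order `x < y :<-> 0 < o a x y` on `P.erase a` (general position: total; StTR: transitive).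
Induction on finite sets or `Finset.exists_minimal`: for every nonempty `S ⊆ P.erase a` there is
`b ∈ S` with `0 < o a b c` for all `c ∈ S`, `c ≠ b`. -/
def StNX : Prop := ∀ (P : Finset (ℝ × ℝ)) (a : ℝ × ℝ), GP P → a ∈ P → (∃ b ∈ P, b ≠ a) →
  Ext P a → ∃ b, HullEdge P a b

/-- HD (EASY-MEDIUM).  The end point of a hull edge is extreme: the points of `P \ {b}` lie in the
convex set `{x | 0 < o a b x} ∪ {a}` (convexity by hand: `o a b` is affine and vanishes at `a`; if
both points are `a` the combination is `a`, otherwise a combination with `o = 0` is `a`), and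
`b ≠ a`, `o a b b = 0`. -/
def StHD : Prop := ∀ (P : Finset (ℝ × ℝ)) (a b : ℝ × ℝ), HullEdge P a b → Ext P b

/-- TI (EASY-MEDIUM).  No extreme point lies strictly between `a` and `b` in the angular order at
`r`, if `a b` is a hull edge: `o r a b * c = o a b c * r + o b r c * a + o r a c * b` coordinatewise,
`o r a b = o a b c + o b r c + o r a c`, `o b r c = o r c b`, all positive, so `c` is in the convex
hull of `r, a, b`, which are in `P \ {c}`. -/
def StTI : Prop := ∀ (P : Finset (ℝ × ℝ)) (a b r c : ℝ × ℝ), HullEdge P a b → r ∈ P → c ∈ P →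
  c ≠ r → c ≠ a → c ≠ b → 0 < o r a c → 0 < o r c b → ¬ Ext P c

/-- the hypotheses on the coloured set, apart from the balance -/
structure Good (R B : Finset (ℝ × ℝ)) : Prop where
  disj : Disjoint R B
  gp : GP (R ∪ B)
  ext : ∀ r ∈ R, Ext (R ∪ B) r
  one : ∀ b ∈ B, ∀ c ∈ B, ∀ r ∈ R, ∀ b' ∈ B, ∀ c' ∈ B, ∀ r' ∈ R, HullEdge (R ∪ B) b c →
    HullEdge (R ∪ B) c r → HullEdge (R ∪ B) b' c' → HullEdge (R ∪ B) c' r' → c = c'

/-- RU (MEDIUM, hypotheses StTR, StNX, StHD, StTI).  Long runs end.  `r` is red (the base point of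
the order `x < y :<-> 0 < o r x y`), `b c` is a blue hull edge (so is `b`, `c` blue), `s` is a red
point with `c < s`.  Then some blue hull edge `b' c'` is followed by a hull edge `c' s'`, `s'` red,
`s' ≠ r`.
PROOF.  Among the blue `c'` with a blue hull edge `b' c'` and `c' < s` take the maximal one in the
order (nonempty, finite, StTR with the extreme point `r`).  `c'` is extreme (StHD), so it has a next
vertex `d` (StNX).  `d ≠ r`: a hull edge `c' r` has `s` on its left, `0 < o c' r s = o r s c'`,
against `c' < s` (antisymmetry `o r s c' = - o r c' s`).  If `d` is red we are done.  If `d` is blue: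
`0 < o c' d r = o r c' d` (`r` is left of the hull edge), so `c' < d`; `d ≠ s`; if `d < s` this
contradicts the maximality; otherwise `0 < o r s d` (general position), and `s` lies strictly
between `c'` and `d`, against StTI (`s` is extreme). -/
def StRU : Prop := ∀ (R B : Finset (ℝ × ℝ)) (r s b c : ℝ × ℝ), Good R B → r ∈ R → s ∈ R →
  r ≠ s → b ∈ B → c ∈ B → HullEdge (R ∪ B) b c → 0 < o r c s →
  ∃ b' ∈ B, ∃ c' ∈ B, ∃ s' ∈ R, s' ≠ r ∧ HullEdge (R ∪ B) b' c' ∧ HullEdge (R ∪ B) c' s'

/-- SQ (MEDIUM, hypotheses StTR, StNX, StHD, StTI, StRU).  Between two consecutive red points.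
`r0` is the base point, `r0` is the end of every pattern blue, blue, red (`hr0`).  `p`, `q` are
consecutive red points in the order `x < y :<-> 0 < o r0 x y` with `r0` as the smallest element:
`p = r0` or `0 < o r0 p q`, and no red point is between.  Then `p q` is a hull edge, or `p z`, `z q`
are hull edges for a blue `z`.
PROOF.  `p` has a next vertex `x` (StNX).  (i) `x ≠ r0`: if `p = r0` clear; otherwise
`0 < o p r0 q = o r0 q p`, against `0 < o r0 p q`.  (ii) not `q < x` (i.e. `0 < o r0 q x` is
impossible): for `p = r0` the hull edge gives `0 < o r0 x q`; otherwise `p < q < x`, against StTI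
for the hull edge `p x`.  (iii) `x` red: `x = q`, otherwise `p < x < q` (general position; for
`p ≠ r0`, `0 < o p x r0 = o r0 p x`), against `hcons`.  (iv) `x` blue: so `x < q`.  `x` is extreme
(StHD) and has a next vertex `y` (StNX).  `y ≠ r0` (`0 < o x r0 q = o r0 q x` is impossible), not
`q < y` (`x < q < y`, StTI for `x y`).  `y` red: `y = q`, otherwise `x < y < q`, so `p < y < q`
(StTR; for `p = r0` nothing to show), against `hcons`.  `y` blue: `y < q`; StRU with `r = r0`,
`s = q`, `b = x`, `c = y` gives a pattern ending in `s' ≠ r0`, against `hr0`. -/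
def StSQ : Prop := ∀ (R B : Finset (ℝ × ℝ)) (r0 p q : ℝ × ℝ), Good R B → r0 ∈ R → p ∈ R → q ∈ R →
  q ≠ r0 → (∀ b ∈ B, ∀ c ∈ B, ∀ s ∈ R, HullEdge (R ∪ B) b c → HullEdge (R ∪ B) c s → s = r0) →
  (p = r0 ∨ 0 < o r0 p q) →
  (∀ s ∈ R, s ≠ r0 → s ≠ p → s ≠ q → ¬ ((p = r0 ∨ 0 < o r0 p s) ∧ 0 < o r0 s q)) →
  HullEdge (R ∪ B) p q ∨ ∃ z ∈ B, HullEdge (R ∪ B) p z ∧ HullEdge (R ∪ B) z q

/-- CY (MEDIUM, hypotheses StTR, StNX, StSQ).  The red points in counterclockwise order.
PROOF.  Choose `r0`: the end `s` of a pattern blue, blue, red if there is one (by `Good.one` all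
patterns have the same middle point `c`, and the next vertex of `c` is unique: two hull edges
`c s`, `c s'` with `s ≠ s'` give `0 < o c s s'` and `0 < o c s' s`), any red point otherwise.  Sort
`R.erase r0` by `x < y :<-> 0 < o r0 x y` (strict total order by StTR and general position; a list
`List.Pairwise`, by induction or `Finset.sort` on a linear order), `r 0 = r0`, `r (i + 1)` = the
`i`-th element.  For `i + 1 < n` use StSQ.  For `i + 1 = n`: the next vertex `x` of `p = r (n - 1)`
(StNX) is blue (take `z`), or red; then `x = r0`, since otherwise (`p ≠ r0`) `0 < o p x r0 =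
o r0 p x` and `x` would come after `p`; if `p = r0` then `n = 1` and `x ∈ R`, `x ≠ r0` is
impossible. -/
def StCY : Prop := ∀ (R B : Finset (ℝ × ℝ)), Good R B → R.Nonempty → B.Nonempty →
  ∃ r z : ℕ → ℝ × ℝ, (∀ i < R.card, r i ∈ R) ∧ (∀ i < R.card, ∀ j < R.card, r i = r j → i = j) ∧
    ∀ i < R.card, HullEdge (R ∪ B) (r i) (if i + 1 < R.card then r (i + 1) else r 0) ∨
      (z i ∈ B ∧ HullEdge (R ∪ B) (r i) (z i) ∧
        (i + 1 < R.card → HullEdge (R ∪ B) (z i) (r (i + 1))))

/-- EXC (MEDIUM).  The exchange lemma.  Two different hull edges `a b`, `c d` and two different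
points `p`, `q` of `P` outside `{a, b, c, d}` with `o a b p * o c d q ≤ o a b q * o c d p`: the
triangles `a b p` and `c d q` meet only in common end points.
PROOF.  Write `f x = o a b x`, `g x = o c d x` (affine, `≥ 0` on `P`).  A point `w` of the triangle
`a b p` is `(1 - t) p + t y`, `y` in the segment `a b`; so `f w = (1 - t) f p`,
`g w = (1 - t) g p + t g y`, `g y ≥ 0`: `f w * g p ≤ f p * g w`, and in the same way
`g w * f q ≤ g q * f w`.  If `f w = 0` then `t = 1`, `w = y` is in the segment `a b`; then `w` is in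
the triangle `c d q` with `f w = 0`, where `f > 0` at `q` and `f ≥ 0` at `c`, `d`, so `w` is a
combination of those of `c`, `d` with `f = 0`, i.e. of `c`, `d` in `{a, b}`; not both are
(`(c, d) ≠ (a, b)`, and `(c, d) = (b, a)` is impossible because of `f p > 0`, `o b a p > 0`), so
`w` is one point, `w = c` or `w = d`, in `{a, b}`.  Same for `g w = 0`.  If both are positive,
multiply: `f w g w (g p f q) ≤ f w g w (f p g q)`, so `g p f q ≤ f p g q`, with the hypothesis
equality, so equality holds in both inequalities: `t * g y = 0` and `s * f y' = 0`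
(`w = (1 - s) q + s y'`).  So `w = p`, or `y` (a point of the segment `a b` with `g y = 0`) is `a`
or `b` and is in `{c, d}` (`g > 0` at the points of `P` other than `c`, `d`); same for `q`.
`w = p` and `w = q`: no.  `w = p` on the segment `q v`, `v` in `P`, `v ≠ p, q`: three collinear
points, no (`GP`).  `w` on the segments `p v` and `q v'`: `v ∈ {a, b} ∩ {c, d}` and also `v'`; the
intersection has at most one point, `v = v'`; `p`, `q`, `v` are not collinear, so `w = v`. -/
def StEXC : Prop := ∀ (P : Finset (ℝ × ℝ)) (a b c d p q w : ℝ × ℝ), GP P → HullEdge P a b →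
  HullEdge P c d → (a, b) ≠ (c, d) → p ∈ P → q ∈ P → p ≠ q → p ≠ a → p ≠ b → p ≠ c → p ≠ d →
  q ≠ a → q ≠ b → q ≠ c → q ≠ d → o a b p * o c d q ≤ o a b q * o c d p →
  w ∈ convexHull ℝ ({a, b, p} : Set (ℝ × ℝ)) → w ∈ convexHull ℝ ({c, d, q} : Set (ℝ × ℝ)) →
  (w = a ∨ w = b) ∧ (w = c ∨ w = d)

/-- MI (EASY-MEDIUM).  A bijection with the smallest product: `K` and `X` finite of the same size,
`F i x > 0`.  Among the (finitely many, at least one) bijections `K ≃ X` take one for which
`∏ i, F i (σ i)` is minimal (`Finite.exists_min`, `Fintype.equivOfCardEq` for the nonemptiness);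
compare with `σ` composed with the transposition of `i` and `j` and cancel the other (positive)
factors. -/
def StMI : Prop := ∀ (K : Finset ℕ) (X : Finset (ℝ × ℝ)) (F : ℕ → ℝ × ℝ → ℝ), X.card = K.card →
  (∀ i ∈ K, ∀ x ∈ X, 0 < F i x) → ∃ s : ℕ → ℝ × ℝ, (∀ i ∈ K, s i ∈ X) ∧
    (∀ i ∈ K, ∀ j ∈ K, s i = s j → i = j) ∧
    ∀ i ∈ K, ∀ j ∈ K, i ≠ j → F i (s i) * F j (s j) ≤ F i (s j) * F j (s i)

/-- HE (EASY).  A hull edge meets another segment only in common end points: `o a b` is affine, `0`
on the segment `a b`, and positive at `c` unless `c = a` or `c = b`. -/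
def StHE : Prop := ∀ (P : Finset (ℝ × ℝ)) (a b c d x : ℝ × ℝ), HullEdge P a b → c ∈ P → d ∈ P →
  c ≠ d → ¬ (c = a ∧ d = b) → ¬ (c = b ∧ d = a) → x ∈ segment ℝ a b → x ∈ segment ℝ c d →
  (x = a ∨ x = b) ∧ (x = c ∨ x = d)

/-- the points of the path `r 0, β 0, r 1, β 1, ..` -/
def pt (r β : ℕ → ℝ × ℝ) (k : ℕ) : ℝ × ℝ := if k % 2 = 0 then r (k / 2) else β (k / 2)

/-- AS (EASY-MEDIUM).  Assembly: `l = List.ofFn (n := 2 * n) fun k => pt r β k`. -/
def StAS : Prop := ∀ (R B : Finset (ℝ × ℝ)) (n : ℕ) (r β : ℕ → ℝ × ℝ), Disjoint R B →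
  R.card = n → B.card = n → (∀ i < n, r i ∈ R) → (∀ i < n, ∀ j < n, r i = r j → i = j) →
  (∀ i < n, β i ∈ B) → (∀ i < n, ∀ j < n, β i = β j → i = j) →
  (∀ i j : ℕ, i < j → j + 1 < 2 * n → ∀ x, x ∈ segment ℝ (pt r β i) (pt r β (i + 1)) →
    x ∈ segment ℝ (pt r β j) (pt r β (j + 1)) →
    (x = pt r β i ∨ x = pt r β (i + 1)) ∧ (x = pt r β j ∨ x = pt r β (j + 1))) →
  ∃ l, IsPath R B l

/-- the combinatorial data of the path before the choice of the apices -/
structure Dat (R B : Finset (ℝ × ℝ)) (r β : ℕ → ℝ × ℝ) : Prop where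
  rm : ∀ i < R.card, r i ∈ R
  ri : ∀ i < R.card, ∀ j < R.card, r i = r j → i = j
  bm : ∀ i < R.card, β i ∈ B
  bi : ∀ i < R.card, ∀ j < R.card, β i = β j → i = j
  /-- every index is of hull type or of triangle type -/
  ty : ∀ i < R.card, (HullEdge (R ∪ B) (r i) (β i) ∧
      (i + 1 < R.card → HullEdge (R ∪ B) (β i) (r (i + 1)))) ∨
    HullEdge (R ∪ B) (r i) (if i + 1 < R.card then r (i + 1) else r 0)
  /-- two different indices which are not of hull type have disjoint triangles -/
  tr : ∀ i < R.card, ∀ j < R.card, i ≠ j →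
    ¬ (HullEdge (R ∪ B) (r i) (β i) ∧ (i + 1 < R.card → HullEdge (R ∪ B) (β i) (r (i + 1)))) →
    ¬ (HullEdge (R ∪ B) (r j) (β j) ∧ (j + 1 < R.card → HullEdge (R ∪ B) (β j) (r (j + 1)))) →
    ∀ w, w ∈ convexHull ℝ ({r i, (if i + 1 < R.card then r (i + 1) else r 0), β i} :
        Set (ℝ × ℝ)) →
      w ∈ convexHull ℝ ({r j, (if j + 1 < R.card then r (j + 1) else r 0), β j} :
        Set (ℝ × ℝ)) →
      (w = r i ∨ w = (if i + 1 < R.card then r (i + 1) else r 0)) ∧
      (w = r j ∨ w = (if j + 1 < R.card then r (j + 1) else r 0))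

/-- DA (MEDIUM, hypotheses StCY, StMI, StEXC).  Take `r`, `z` from StCY, `n = R.card = B.card`.
`H` = the indices `i < n` with `z i ∈ B`, `HullEdge (r i) (z i)` and
`i + 1 < n -> HullEdge (z i) (r (i + 1))`, `K = range n \ H`; so on `K` the edge
`r i, r (i + 1)` (or `r (n - 1), r 0`) is a hull edge.  `z` is injective on `H` (the vertex before a
hull vertex is unique: two hull edges `a c`, `b c`, `a ≠ b`, give `0 < o a c b` and `0 < o b c a`,
which are opposite), `X = B \ z(H)`, `|X| = n - |H| = |K|`.  StMI with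
`F i x = o (r i) (r (i + 1)) x` (positive: the ends are red, `x` is blue) gives `σ`; `β = z` on `H`,
`σ` on `K`.  `tr`: an index which is not of hull type is in `K`; StEXC; for `i ≠ j` the pairs are
different since `r i ≠ r j`.  The case `n = 1`: the second alternative of StCY would be a hull edge
`r 0, r 0`, impossible. -/
def StDA : Prop := ∀ (R B : Finset (ℝ × ℝ)), Good R B → R.Nonempty → R.card = B.card →
  ∃ r β : ℕ → ℝ × ℝ, Dat R B r β

/-- FI (MEDIUM, hypotheses StDA, StHE, StAS).  The final step.  `R` empty: the empty list.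
Otherwise StDA and StAS; it remains to check that two edges `i < j` of the path meet only in common
end points.  Edges `2 i` is `r i, β i`, edge `2 i + 1` is `β i, r (i + 1)`.  If the index of one of
the two is of hull type this edge is a hull edge: StHE (the two edges are different pairs, because
`pt` is injective below `2 n`).  Otherwise both are sides of triangles; same triangle: `r i, β i` and
`β i, r (i + 1)` meet only in `β i` (general position); different triangles: `Dat.tr`, and a point
of the segment `r i, β i` which is `r i` or `r (i + 1)` is `r i` (general position), and so on. -/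
def StFI : Prop := ∀ (R B : Finset (ℝ × ℝ)), Good R B → R.card = B.card → ∃ l, IsPath R B l

/-- BR (EASY).  Bridge to the hypotheses of the hand-in (three different collinear points; two
hull edges). -/
def StBR : Prop := ∀ (P : Finset (ℝ × ℝ)),
  (∀ p ∈ P, ∀ q ∈ P, ∀ r ∈ P, p ≠ q → q ≠ r → p ≠ r →
    ¬ Collinear ℝ ({p, q, r} : Set (ℝ × ℝ))) → GP P

end Pool.Agent.Work.MP_c6c039_lc.HV
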