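import Pool.Agent.Work.MP_c6c039_lc.HV.Stmts

/-!
# HV2: two long blue runs

THEOREM.  `R`, `B` balanced, general position, every red point is a hull vertex.  Let `a`, `c` be
two different red points such that every long blue run is followed (counterclockwise) by `a` or by
`c`, and such that on each open side of the line `a c` there are at least as many blue as red
points.  Then there is a simple spanning alternating path.

PROOF.  Write `side P u v` for the points of `P` strictly left of `u v`.  The excess of blue over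
red on the two sides is `(0, 2)`, `(1, 1)` or `(2, 0)`; by symmetry let the excess be `0` or `1` on
the side `(c, a)`.  Put `P1 = side P c a ∪ {a}`, `P2 = side P a c ∪ {a, c}`.  Both are sets as in HV
(red points on the hull, every long blue run is followed by `a`), with as many red as blue points or
one red point more.  So both have a path which starts in `a` (HV, also with one red point more: the
path ends in a red point).  The hull of `P1` meets the line `a c` only in `a`, so the first path
reversed and the second one form a simple path.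
-/

set_option autoImplicit false

namespace Pool.Agent.Work.MP_c6c039_lc.HV

open Classical in
/-- the points of `P` strictly left of the directed line `u v` -/
noncomputable def side (P : Finset (ℝ × ℝ)) (u v : ℝ × ℝ) : Finset (ℝ × ℝ) :=
  P.filter fun x => 0 < o u v x

/-- A set as in HV with the base point `r0`: every pattern blue, blue, red of hull edges ends in
`r0`. -/
structure Lr (R B : Finset (ℝ × ℝ)) (r0 : ℝ × ℝ) : Prop where
  disj : Disjoint R B
  gp : GP (R ∪ B)
  ext : ∀ r ∈ R, Ext (R ∪ B) r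
  mem : r0 ∈ R
  pat : ∀ b ∈ B, ∀ c ∈ B, ∀ s ∈ R, HullEdge (R ∪ B) b c → HullEdge (R ∪ B) c s → s = r0

/-- the hypotheses with two red points `a`, `c` -/
structure Two (R B : Finset (ℝ × ℝ)) (a c : ℝ × ℝ) : Prop where
  disj : Disjoint R B
  gp : GP (R ∪ B)
  ext : ∀ r ∈ R, Ext (R ∪ B) r
  ma : a ∈ R
  mc : c ∈ R
  ne : a ≠ c
  pat : ∀ x ∈ B, ∀ y ∈ B, ∀ s ∈ R, HullEdge (R ∪ B) x y → HullEdge (R ∪ B) y s → s = a ∨ s = c

/-- GD (EASY).  `Good.one`: `c r`, `c' r'` hull edges with `r = r0 = r'`; if `c ≠ c'` then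
`0 < o c r0 c'` and `0 < o c' r0 c`, which are opposite (see `XDA.prev_unique` in `I_DA.lean`;
do not import it, copy it). -/
def StGD : Prop := ∀ (R B : Finset (ℝ × ℝ)) (r0 : ℝ × ℝ), Lr R B r0 → Good R B

/-- CY2 (EASY, copy of `I_CY.lean` with the given base point `r0` instead of `exBase`; hypothesis
StGD for the passage from `Lr` to `Good`). -/
def StCY2 : Prop := ∀ (R B : Finset (ℝ × ℝ)) (r0 : ℝ × ℝ), Lr R B r0 → B.Nonempty →
  ∃ r z : ℕ → ℝ × ℝ, r 0 = r0 ∧ (∀ i < R.card, r i ∈ R) ∧
    (∀ i < R.card, ∀ j < R.card, r i = r j → i = j) ∧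
    ∀ i < R.card, HullEdge (R ∪ B) (r i) (if i + 1 < R.card then r (i + 1) else r 0) ∨
      (z i ∈ B ∧ HullEdge (R ∪ B) (r i) (z i) ∧
        (i + 1 < R.card → HullEdge (R ∪ B) (z i) (r (i + 1))))

/-- `Dat` with the indices of `β` below `B.card` -/
structure Dat2 (R B : Finset (ℝ × ℝ)) (r β : ℕ → ℝ × ℝ) : Prop where
  rm : ∀ i < R.card, r i ∈ R
  ri : ∀ i < R.card, ∀ j < R.card, r i = r j → i = j
  bm : ∀ i < B.card, β i ∈ B
  bi : ∀ i < B.card, ∀ j < B.card, β i = β j → i = j
  ty : ∀ i < B.card, (HullEdge (R ∪ B) (r i) (β i) ∧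
      (i + 1 < R.card → HullEdge (R ∪ B) (β i) (r (i + 1)))) ∨
    HullEdge (R ∪ B) (r i) (if i + 1 < R.card then r (i + 1) else r 0)
  tr : ∀ i < B.card, ∀ j < B.card, i ≠ j →
    ¬ (HullEdge (R ∪ B) (r i) (β i) ∧ (i + 1 < R.card → HullEdge (R ∪ B) (β i) (r (i + 1)))) →
    ¬ (HullEdge (R ∪ B) (r j) (β j) ∧ (j + 1 < R.card → HullEdge (R ∪ B) (β j) (r (j + 1)))) →
    ∀ w, w ∈ convexHull ℝ ({r i, (if i + 1 < R.card then r (i + 1) else r 0), β i} :
        Set (ℝ × ℝ)) →
      w ∈ convexHull ℝ ({r j, (if j + 1 < R.card then r (j + 1) else r 0), β j} :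
        Set (ℝ × ℝ)) →
      (w = r i ∨ w = (if i + 1 < R.card then r (i + 1) else r 0)) ∧
      (w = r j ∨ w = (if j + 1 < R.card then r (j + 1) else r 0))

/-- DA2 (EASY-MEDIUM, copy of `I_DA.lean`).  As StDA with `m = B.card`, `R.card = m` or `m + 1`:
`H` = the indices `i < m` with `z i ∈ B`, `HullEdge (r i) (z i)` and
`i + 1 < R.card -> HullEdge (z i) (r (i + 1))`, `K = range m \ H`, `X = B \ z(H)`,
`|X| = m - |H| = |K|`. -/
def StDA2 : Prop := ∀ (R B : Finset (ℝ × ℝ)) (r0 : ℝ × ℝ), Lr R B r0 → B.Nonempty →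
  (R.card = B.card ∨ R.card = B.card + 1) → ∃ r β : ℕ → ℝ × ℝ, r 0 = r0 ∧ Dat2 R B r β

/-- AS2 (EASY-MEDIUM, copy of `I_AS.lean`): the list `List.ofFn (n := n + m) fun k => pt r β k`,
written as `r 0 :: l`. -/
def StAS2 : Prop := ∀ (R B : Finset (ℝ × ℝ)) (n m : ℕ) (r β : ℕ → ℝ × ℝ), Disjoint R B →
  R.card = n → B.card = m → 0 < n → (n = m ∨ n = m + 1) →
  (∀ i < n, r i ∈ R) → (∀ i < n, ∀ j < n, r i = r j → i = j) →
  (∀ i < m, β i ∈ B) → (∀ i < m, ∀ j < m, β i = β j → i = j) →
  (∀ i j : ℕ, i < j → j + 1 < n + m → ∀ x, x ∈ segment ℝ (pt r β i) (pt r β (i + 1)) →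
    x ∈ segment ℝ (pt r β j) (pt r β (j + 1)) →
    (x = pt r β i ∨ x = pt r β (i + 1)) ∧ (x = pt r β j ∨ x = pt r β (j + 1))) →
  ∃ l, IsPath R B (r 0 :: l)

/-- PA (EASY-MEDIUM, copy of `I_FI.lean`, hypotheses StDA2, StHE, StAS2).  If `B` is empty then
`R.card = 1`, `R = {r0}` and the path is `[r0]`. -/
def StPA : Prop := ∀ (R B : Finset (ℝ × ℝ)) (r0 : ℝ × ℝ), Lr R B r0 →
  (R.card = B.card ∨ R.card = B.card + 1) → ∃ l, IsPath R B (r0 :: l)

/-- RV (EASY-MEDIUM).  A path can be reversed. -/
def StRV : Prop := ∀ (R B : Finset (ℝ × ℝ)) (l : List (ℝ × ℝ)), IsPath R B l →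
  IsPath R B l.reverse

/-- JN (MEDIUM-HARD, hypothesis StRV).  Two paths which start in `v`, the first one strictly left of
the line `u v` apart from `v`, the second one weakly right of it.  By StRV the list
`l1.reverse ++ [v]` is a path.  A point `x` of an edge of the first and of an edge of the second
path has `o u v x ≥ 0` and `≤ 0` (affine), so it is `0`; then, as `o u v` is positive at the points
of the first set other than `v`, the first edge has the end point `v` and `x = v`.  The second edge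
contains `v`, so it is the first edge of `v :: l2` (an edge `j ≥ 1` of `v :: l2` meets the edge `0`,
which contains `v`, in `l[1] ≠ v` or not at all). -/
def StJN : Prop := ∀ (R1 B1 R2 B2 : Finset (ℝ × ℝ)) (u v : ℝ × ℝ) (l1 l2 : List (ℝ × ℝ)),
  IsPath R1 B1 (v :: l1) → IsPath R2 B2 (v :: l2) →
  (∀ x ∈ R1 ∪ B1, x ≠ v → 0 < o u v x) → (∀ x ∈ R2 ∪ B2, o u v x ≤ 0) →
  IsPath (R1 ∪ R2) (B1 ∪ B2) (l1.reverse ++ v :: l2)

/-- HS (EASY, copy of `I_HD.lean`).  The starting point of a hull edge is extreme. -/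
def StHS : Prop := ∀ (P : Finset (ℝ × ℝ)) (a b : ℝ × ℝ), HullEdge P a b → Ext P a

/-- HX (MEDIUM).  The hull edges of the part of `P` left of a chord `u v` (both included) other
than `u v` are hull edges of `P`.  PROOF.  Let `w ∈ P` be outside the part, so `o u v w < 0` (general
position), and suppose `o x y w < 0`.  If `(x, y) = (v, u)` then `o v u w = - o u v w > 0`.
Otherwise some `p ∈ {x, y}` has `0 < o u v p` and `p ≠ u, v`.  The point `m` of the segment `p w` on
the line `u v` has `o x y m < 0` (`o x y p = 0`), `m = u + t (v - u)`, `o x y u ≥ 0`, `o x y v ≥ 0`,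
so `t < 0` or `t > 1`: `u ∈ conv {p, w, v}` or `v ∈ conv {p, w, u}`, against the extremality. -/
def StHX : Prop := ∀ (P : Finset (ℝ × ℝ)) (u v x y : ℝ × ℝ), GP P → u ∈ P → v ∈ P → u ≠ v →
  Ext P u → Ext P v → HullEdge (insert u (insert v (side P u v))) x y → ¬ (x = u ∧ y = v) →
  HullEdge P x y

/-- HY (MEDIUM, hypothesis StHX).  The part without `u`: a hull edge `x y` with `y ≠ v` extreme in
`P` is a hull edge of `P`.  PROOF.  By StHX it is enough that `0 < o x y u`; otherwise
`o x y u < 0` (general position).  If `x = v` then `o v y u = o u v y > 0`.  Otherwise `o u v x`,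
`o u v y`, `o x y v` are positive and
`(o x u v) y = (o y u v) x + (o x y v) u + (o x u y) v` (coordinatewise, ring),
`o x u v = o u v x`, `o y u v = o u v y`, `o x u y = - o x y u`, so `y ∈ conv {x, u, v}`. -/
def StHY : Prop := ∀ (P : Finset (ℝ × ℝ)) (u v x y : ℝ × ℝ), GP P → u ∈ P → v ∈ P → u ≠ v →
  Ext P u → Ext P v → Ext P y → y ≠ v → HullEdge (insert v (side P u v)) x y → HullEdge P x y

/-- PX (EASY-MEDIUM, hypothesis StHX).  The part left of `u v` with `u` and `v`.  `Ext` and `GP` are
monotone.  `pat`: the two hull edges `b c'`, `c' s` are not `u v` (`b`, `c'` blue), so they are hull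
edges of `P = R ∪ B`, `s = u` or `s = v`; if `s = v` then `0 < o c' v u = - o u v c'`, against
`0 < o u v c'`. -/
def StPX : Prop := ∀ (R B : Finset (ℝ × ℝ)) (u v : ℝ × ℝ), Two R B u v →
  Lr (insert u (insert v (side R u v))) (side B u v) u

/-- PY (EASY-MEDIUM, hypotheses StHS, StHY).  The part left of `u v` with `v`.  `pat`: suppose
`s ≠ v`; `s` is extreme, so `c' s` is a hull edge of `P` (StHY), so `c'` is extreme (StHS), so `b c'`
is a hull edge of `P` (StHY); hence `s = u` or `s = v`, but `u` is not in the part. -/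
def StPY : Prop := ∀ (R B : Finset (ℝ × ℝ)) (u v : ℝ × ℝ), Two R B u v →
  Lr (insert v (side R u v)) (side B u v) v

/-- CT (EASY-MEDIUM).  Counting.  No point of `P` other than `u`, `v` is on the line `u v`
(general position); `o v u x = - o u v x`. -/
def StCT : Prop := ∀ (R B : Finset (ℝ × ℝ)) (u v : ℝ × ℝ), Two R B u v →
  (side R u v).card + (side R v u).card + 2 = R.card ∧
  (side B u v).card + (side B v u).card = B.card ∧
  (insert v (side R u v)).card = (side R u v).card + 1 ∧
  (insert v (insert u (side R v u))).card = (side R v u).card + 2 ∧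
  insert v (side R u v) ∪ insert v (insert u (side R v u)) = R ∧
  side B u v ∪ side B v u = B

/-- FT (EASY-MEDIUM, hypotheses StPA, StJN, StPX, StPY, StCT).  The theorem.  If the excess
`|side B u v| - |side R u v|` is `0` or `1`: StPA for the part `(u, v)` with `v` (StPY) and for the
part `(v, u)` with `u`, `v` (StPX for `Two R B v u`, the symmetric hypothesis), StJN, StCT.
Otherwise it is `2` and the other one is `0`: exchange `u` and `v`. -/
def StFT : Prop := ∀ (R B : Finset (ℝ × ℝ)) (u v : ℝ × ℝ), Two R B u v → R.card = B.card →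
  (side R u v).card ≤ (side B u v).card → (side R v u).card ≤ (side B v u).card →
  ∃ l, IsPath R B l

end Pool.Agent.Work.MP_c6c039_lc.HV
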