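import Pool.Agent.Work.MP_c6c039_lc.HV.Stmts2

/-!
# HV3: the mirror image of HV2

The same as HV2 with the word followed replaced by the word preceded, by the reflection
`(s, t) ↦ (s, -t)`, which reverses the orientation.
-/

set_option autoImplicit false

namespace Pool.Agent.Work.MP_c6c039_lc.HV

/-- the reflection, an involution -/
def rf (x : ℝ × ℝ) : ℝ × ℝ := (x.1, -x.2)

/-- the mirror image of the hypotheses `Two`: every pattern red, blue, blue of hull edges starts in
`a` or `c` -/
structure Two' (R B : Finset (ℝ × ℝ)) (a c : ℝ × ℝ) : Prop where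
  disj : Disjoint R B
  gp : GP (R ∪ B)
  ext : ∀ r ∈ R, Ext (R ∪ B) r
  ma : a ∈ R
  mc : c ∈ R
  ne : a ≠ c
  pat : ∀ x ∈ B, ∀ y ∈ B, ∀ s ∈ R, HullEdge (R ∪ B) s x → HullEdge (R ∪ B) x y → s = a ∨ s = c

/-- MP (EASY-MEDIUM).  `l.map rf` is a path: `rf` is an injective linear map, it maps segments onto
segments. -/
def StMP : Prop := ∀ (R B : Finset (ℝ × ℝ)) (l : List (ℝ × ℝ)),
  IsPath (R.image rf) (B.image rf) l → IsPath R B (l.map rf)

/-- MT (EASY-MEDIUM).  `o (rf u) (rf v) (rf x) = - o u v x = o v u x`, so `HullEdge P a b` is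
`HullEdge (P.image rf) (rf b) (rf a)`; `Ext` and `GP` are invariant (`rf` is linear and injective:
the image of the convex hull is the convex hull of the image). -/
def StMT : Prop := ∀ (R B : Finset (ℝ × ℝ)) (a c : ℝ × ℝ), Two' R B a c →
  Two (R.image rf) (B.image rf) (rf a) (rf c)

/-- MC (EASY).  The points on the two sides are exchanged. -/
def StMC : Prop := ∀ (R : Finset (ℝ × ℝ)) (u v : ℝ × ℝ),
  (side (R.image rf) (rf u) (rf v)).card = (side R v u).card ∧ (R.image rf).card = R.card

/-- FM (EASY, hypotheses StFT, StMP, StMT, StMC). -/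
def StFM : Prop := ∀ (R B : Finset (ℝ × ℝ)) (u v : ℝ × ℝ), Two' R B u v → R.card = B.card →
  (side R u v).card ≤ (side B u v).card → (side R v u).card ≤ (side B v u).card →
  ∃ l, IsPath R B l

end Pool.Agent.Work.MP_c6c039_lc.HV
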